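import Pool.Agent.TH464.PO.Comb
import Pool.Agent.TH464.PO.Small

set_option autoImplicit false

/-!
# Cells: the law of the number of long voids, from the void probabilities
-/

namespace Pool.Agent.Q236.EV

open Finset Pool.Agent.TH464.PO

open Classical in
/-- the elements of `Om` which hit all cells of `I` and no cell of `U` -/
noncomputable def pat (Om : Finset ℕ) (hit : ℕ → ℕ → Prop) (I U : Finset ℕ) : Finset ℕ :=
  Om.filter (fun n => (∀ i ∈ I, hit n i) ∧ ∀ i ∈ U, ¬ hit n i)

/-- the void probabilities of `N` cells -/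
def Void (Om : Finset ℕ) (hit : ℕ → ℕ → Prop) (q : ℝ) (N : ℕ) (e : ℝ) : Prop :=
  ∀ U : Finset ℕ, U ⊆ range N → |((pat Om hit ∅ U).card : ℝ) - Om.card * q ^ U.card| ≤ e * Om.card

lemma pat_insert (Om : Finset ℕ) (hit : ℕ → ℕ → Prop) (a : ℕ) (I U : Finset ℕ) :
    (pat Om hit (insert a I) U).card + (pat Om hit I (insert a U)).card = (pat Om hit I U).card := by
  classical
  rw [← card_union_of_disjoint]
  · congr 1
    unfold pat
    ext n
    simp only [mem_union, mem_filter, mem_insert, forall_eq_or_imp]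
    tauto
  · rw [disjoint_left]
    intro n h1 h2
    unfold pat at h1 h2
    rw [mem_filter] at h1 h2
    exact h2.2.2 a (mem_insert_self a U) (h1.2.1 a (mem_insert_self a I))

/-- **Patterns of hits and voids.** -/
theorem pattern_law (Om : Finset ℕ) (hit : ℕ → ℕ → Prop) (q : ℝ) (N : ℕ) (e : ℝ)
    (hv : Void Om hit q N e) (I : Finset ℕ) : ∀ U : Finset ℕ, I ⊆ range N → U ⊆ range N → Disjoint I U →
    |((pat Om hit I U).card : ℝ) - Om.card * ((1 - q) ^ I.card * q ^ U.card)| ≤
      2 ^ I.card * (e * Om.card) := by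
  classical
  induction I using Finset.induction_on with
  | empty =>
    intro U _ hU _
    have := hv U hU
    simpa using this
  | insert a I ha ih =>
    intro U hI hU hd
    rw [insert_subset_iff] at hI
    rw [disjoint_insert_left] at hd
    have h1 := ih U hI.2 hU hd.2
    have h2 := ih (insert a U) hI.2 (insert_subset_iff.2 ⟨hI.1, hU⟩) (by
      rw [disjoint_insert_right]
      exact ⟨ha, hd.2⟩)
    have h3 : ((pat Om hit (insert a I) U).card : ℝ) + (pat Om hit I (insert a U)).card =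
        (pat Om hit I U).card := by exact_mod_cast pat_insert Om hit a I U
    rw [card_insert_of_notMem hd.1, pow_succ] at h2
    rw [card_insert_of_notMem ha, pow_succ, pow_succ]
    rw [abs_le] at h1 h2 ⊢
    obtain ⟨a1, a2⟩ := h1
    obtain ⟨b1, b2⟩ := h2
    constructor <;> nlinarith

/-- cell `i` is hit, and the next `m` cells are not -/
def occ (hit : ℕ → ℕ → Prop) (m n i : ℕ) : Prop := hit n i ∧ ∀ j ∈ Ioc i (i + m), ¬ hit n j

open Classical in
/-- the number of the cells `i < N` which are hit and followed by `m` voids -/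
noncomputable def W (hit : ℕ → ℕ → Prop) (m N n : ℕ) : ℕ := ((range N).filter (fun i => occ hit m n i)).card

open Classical in
lemma moment_W (Om : Finset ℕ) (hit : ℕ → ℕ → Prop) (m N k : ℕ) :
    ∑ n ∈ Om, ((W hit m N n).choose k : ℝ) =
      ∑ I ∈ powersetCard k (range N), ((Om.filter (fun n => ∀ i ∈ I, occ hit m n i)).card : ℝ) := by
  have h1 : ∀ I ∈ powersetCard k (range N), ((Om.filter (fun n => ∀ i ∈ I, occ hit m n i)).card : ℝ) =
      ∑ n ∈ Om, if (∀ i ∈ I, occ hit m n i) then (1 : ℝ) else 0 := by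
    intro I _
    rw [Finset.sum_ite, Finset.sum_const_zero, add_zero, Finset.sum_const, nsmul_eq_mul, mul_one]
  rw [Finset.sum_congr rfl h1, Finset.sum_comm]
  apply Finset.sum_congr rfl
  intro n _
  rw [Finset.sum_ite, Finset.sum_const_zero, add_zero, Finset.sum_const, nsmul_eq_mul, mul_one]
  unfold W
  rw [← Finset.card_powersetCard]
  congr 2
  ext I
  rw [mem_filter, mem_powersetCard, mem_powersetCard]
  constructor
  · rintro ⟨a1, a2⟩
    exact ⟨⟨fun h hh => (mem_filter.1 (a1 hh)).1, a2⟩, fun h hh => (mem_filter.1 (a1 hh)).2⟩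
  · rintro ⟨⟨a1, a2⟩, a3⟩
    exact ⟨fun h hh => mem_filter.2 ⟨a1 hh, a3 h hh⟩, a2⟩

/-- any two elements of `I` differ by more than `m` -/
def Sep (m : ℕ) (I : Finset ℕ) : Prop := ∀ i ∈ I, ∀ j ∈ I, i < j → i + m < j

open Classical in
lemma nonsep (m k N : ℕ) :
    ((powersetCard (k + 1) (range N)).filter (fun I => ¬ Sep m I)).card ≤ m * N ^ k := by
  rcases k with _ | k
  · have : (powersetCard (0 + 1) (range N)).filter (fun I => ¬ Sep m I) = ∅ := by
      rw [filter_eq_empty_iff]
      intro I hI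
      rw [mem_powersetCard] at hI
      obtain ⟨a, ha⟩ := card_eq_one.1 hI.2
      rw [not_not]
      intro i hi j hj hij
      rw [ha, mem_singleton] at hi hj
      omega
    rw [this, card_empty]
    exact Nat.zero_le _
  · have h1 : (powersetCard (k + 1 + 1) (range N)).filter (fun I => ¬ Sep m I) ⊆
        (range N).biUnion (fun i => (Ioc i (i + m)).biUnion (fun j =>
          (powersetCard (k + 2) (range N)).filter (fun I => i ∈ I ∧ j ∈ I))) := by
      intro I hI
      rw [mem_filter] at hI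
      obtain ⟨h1, h2⟩ := hI
      unfold Sep at h2
      push Not at h2
      obtain ⟨i, hi, j, hj, hij, hjm⟩ := h2
      rw [mem_biUnion]
      refine ⟨i, (mem_powersetCard.1 h1).1 hi, ?_⟩
      rw [mem_biUnion]
      refine ⟨j, mem_Ioc.2 ⟨hij, hjm⟩, ?_⟩
      rw [mem_filter]
      exact ⟨h1, hi, hj⟩
    refine (card_le_card h1).trans ?_
    have h2 : ∀ i ∈ range N, ((Ioc i (i + m)).biUnion (fun j =>
          (powersetCard (k + 2) (range N)).filter (fun I => i ∈ I ∧ j ∈ I))).card ≤ m * N ^ k := by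
      intro i _
      have h3 : ∀ j ∈ Ioc i (i + m),
          ((powersetCard (k + 2) (range N)).filter (fun I => i ∈ I ∧ j ∈ I)).card ≤ N ^ k := by
        intro j hj
        rw [mem_Ioc] at hj
        have h4 : ((powersetCard (k + 2) (range N)).filter (fun I => i ∈ I ∧ j ∈ I)).card ≤
            (powersetCard k (range N)).card := by
          apply card_le_card_of_injOn (fun I => (I.erase i).erase j)
          · intro I hI
            rw [mem_coe, mem_filter, mem_powersetCard] at hI
            obtain ⟨⟨a1, a2⟩, a3, a4⟩ := hI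
            rw [mem_coe, mem_powersetCard]
            refine ⟨(erase_subset _ _).trans ((erase_subset _ _).trans a1), ?_⟩
            rw [card_erase_of_mem (mem_erase.2 ⟨by omega, a4⟩), card_erase_of_mem a3, a2]
            omega
          · intro I hI J hJ hIJ
            rw [mem_coe, mem_filter] at hI hJ
            simp only at hIJ
            ext x
            by_cases hxi : x = i
            · rw [hxi]
              exact ⟨fun _ => hJ.2.1, fun _ => hI.2.1⟩
            · by_cases hxj : x = j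
              · rw [hxj]
                exact ⟨fun _ => hJ.2.2, fun _ => hI.2.2⟩
              · have h5 : x ∈ (I.erase i).erase j ↔ x ∈ (J.erase i).erase j := by rw [hIJ]
                simp only [mem_erase] at h5
                tauto
        refine h4.trans ?_
        rw [card_powersetCard, card_range]
        exact Nat.choose_le_pow N k
      refine (card_biUnion_le_card_mul _ _ _ h3).trans ?_
      rw [Nat.card_Ioc]
      have : i + m - i = m := by omega
      rw [this]
    refine (card_biUnion_le_card_mul _ _ _ h2).trans ?_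
    rw [card_range]
    apply le_of_eq
    ring

lemma filter_sep (Om : Finset ℕ) (hit : ℕ → ℕ → Prop) (q : ℝ) (N N' : ℕ) (e : ℝ) (hv : Void Om hit q N' e)
    (m k : ℕ) (hN : N + m ≤ N') (I : Finset ℕ) (hI : I ∈ powersetCard k (range N)) (hS : Sep m I)
    [DecidablePred (fun n => ∀ i ∈ I, occ hit m n i)] :
    |((Om.filter (fun n => ∀ i ∈ I, occ hit m n i)).card : ℝ) - Om.card * ((1 - q) * q ^ m) ^ k| ≤
      2 ^ k * (e * Om.card) := by
  classical
  rw [mem_powersetCard] at hI
  obtain ⟨U, hU⟩ : ∃ U, U = I.biUnion (fun i => Ioc i (i + m)) := ⟨_, rfl⟩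
  have h1 : Om.filter (fun n => ∀ i ∈ I, occ hit m n i) = pat Om hit I U := by
    unfold pat
    apply filter_congr
    intro n _
    unfold occ
    rw [hU]
    constructor
    · intro h
      refine ⟨fun i hi => (h i hi).1, fun j hj => ?_⟩
      rw [mem_biUnion] at hj
      obtain ⟨i, hi, hj⟩ := hj
      exact (h i hi).2 j hj
    · rintro ⟨h1, h2⟩ i hi
      exact ⟨h1 i hi, fun j hj => h2 j (mem_biUnion.2 ⟨i, hi, hj⟩)⟩
  have hIN : I ⊆ range N' := hI.1.trans (range_mono (by omega))
  have hUN : U ⊆ range N' := by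
    intro j hj
    rw [hU, mem_biUnion] at hj
    obtain ⟨i, hi, hj⟩ := hj
    have h2 := mem_range.1 (hI.1 hi)
    rw [mem_Ioc] at hj
    exact mem_range.2 (by omega)
  have hd : Disjoint I U := by
    rw [disjoint_left]
    intro j hj hjU
    rw [hU, mem_biUnion] at hjU
    obtain ⟨i, hi, h3⟩ := hjU
    rw [mem_Ioc] at h3
    have := hS i hi j hj h3.1
    omega
  have hUc : U.card = k * m := by
    rw [hU, card_biUnion]
    · rw [Finset.sum_congr rfl (fun i _ => Nat.card_Ioc i (i + m))]
      simp only [Nat.add_sub_cancel_left, sum_const, smul_eq_mul]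
      rw [hI.2]
    · intro i hi j hj hij
      simp only [Function.onFun]
      rw [disjoint_left]
      intro x hx hx2
      rw [mem_Ioc] at hx hx2
      rcases lt_or_gt_of_ne hij with h | h
      · have := hS i hi j hj h
        omega
      · have := hS j hj i hi h
        omega
  have h2 := pattern_law Om hit q N' e hv I U hIN hUN hd
  rw [h1]
  rw [hI.2, hUc] at h2
  have e1 : ((1 - q) * q ^ m) ^ k = (1 - q) ^ k * q ^ (k * m) := by
    rw [mul_pow, ← pow_mul, mul_comm m k]
  rw [e1]
  exact h2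

open Classical in
/-- the binomial moments of `W` -/
lemma moment_bound (Om : Finset ℕ) (hit : ℕ → ℕ → Prop) (q : ℝ) (hq : 0 ≤ q) (hq1 : q ≤ 1) (N N' : ℕ) (e : ℝ)
    (he : 0 ≤ e) (hv : Void Om hit q N' e) (m k : ℕ) (hN : N + m ≤ N') (hkN : k + 1 ≤ N) :
    |∑ n ∈ Om, ((W hit m N n).choose (k + 1) : ℝ) -
      Om.card * ((N * ((1 - q) * q ^ m)) ^ (k + 1) / (k + 1).factorial)| ≤
    ((m + (k + 1) ^ 2) * ((1 - q) * q ^ m) * (N * ((1 - q) * q ^ m)) ^ k + (2 * N) ^ (k + 1) * e) *
      Om.card := by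
  obtain ⟨p, hp⟩ : ∃ p, p = (1 - q) * q ^ m := ⟨_, rfl⟩
  have hp0 : 0 ≤ p := by rw [hp]; exact mul_nonneg (by linarith) (by positivity)
  rw [← hp, moment_W]
  have hOm : (0 : ℝ) ≤ Om.card := Nat.cast_nonneg _
  obtain ⟨S, hS⟩ : ∃ S, S = (powersetCard (k + 1) (range N)).filter (fun I => Sep m I) := ⟨_, rfl⟩
  have hsum : ∑ I ∈ powersetCard (k + 1) (range N), ((Om.filter (fun n => ∀ i ∈ I, occ hit m n i)).card : ℝ) =
      ∑ I ∈ S, ((Om.filter (fun n => ∀ i ∈ I, occ hit m n i)).card : ℝ) := by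
    rw [hS, sum_filter_of_ne]
    intro I _ hne
    intro i hi j hj hij
    by_contra hcon
    apply hne
    have : Om.filter (fun n => ∀ i ∈ I, occ hit m n i) = ∅ := by
      rw [filter_eq_empty_iff]
      intro n _ h
      exact (h i hi).2 j (mem_Ioc.2 ⟨hij, by omega⟩) (h j hj).1
    rw [this, card_empty, Nat.cast_zero]
  rw [hsum]
  -- number of the sets
  have hcS : (S.card : ℝ) + (((powersetCard (k + 1) (range N)).filter (fun I => ¬ Sep m I)).card : ℝ) =
      (N.choose (k + 1) : ℝ) := by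
    have h := card_filter_add_card_filter_not (s := powersetCard (k + 1) (range N)) (fun I => Sep m I)
    rw [card_powersetCard, card_range] at h
    rw [hS]
    exact_mod_cast h
  have hns : (((powersetCard (k + 1) (range N)).filter (fun I => ¬ Sep m I)).card : ℝ) ≤ m * (N : ℝ) ^ k := by
    exact_mod_cast nonsep m k N
  have hns0 : (0 : ℝ) ≤ (((powersetCard (k + 1) (range N)).filter (fun I => ¬ Sep m I)).card : ℝ) :=
    Nat.cast_nonneg _
  have hch := choose_bounds N (k + 1) N 0 (by simp) (by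
    rw [zero_add]
    exact_mod_cast hkN)
  rw [sub_zero, add_zero] at hch
  have hfac : (1 : ℝ) ≤ (k + 1).factorial := by exact_mod_cast Nat.factorial_pos (k + 1)
  have hN0 : (0 : ℝ) ≤ N := Nat.cast_nonneg N
  have hNpos : (0 : ℝ) < N := by exact_mod_cast (by omega : 0 < N)
  have hkr : ((k + 1 : ℕ) : ℝ) ≤ N := by exact_mod_cast hkN
  have hbern : (N : ℝ) ^ (k + 1) - (k + 1) ^ 2 * (N : ℝ) ^ k ≤ ((N : ℝ) - ((k + 1 : ℕ) : ℝ)) ^ (k + 1) := by
    have h1 := one_add_mul_le_pow (a := -(((k + 1 : ℕ) : ℝ) / N)) (by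
      have : ((k + 1 : ℕ) : ℝ) / N ≤ 1 := by
        rw [div_le_one hNpos]
        exact hkr
      linarith) (k + 1)
    have h2 : (N : ℝ) - ((k + 1 : ℕ) : ℝ) = N * (1 + -(((k + 1 : ℕ) : ℝ) / N)) := by
      field_simp
      ring
    rw [h2, mul_pow]
    refine le_trans (le_of_eq ?_) (mul_le_mul_of_nonneg_left h1 (by positivity))
    push_cast
    field_simp
    ring
  -- `|S|` is about `N ^ (k + 1) / (k + 1)!`
  have hS1 : (S.card : ℝ) ≤ (N : ℝ) ^ (k + 1) / (k + 1).factorial := by linarith [hch.2]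
  have hS2 : (N : ℝ) ^ (k + 1) / (k + 1).factorial - (m + (k + 1) ^ 2) * (N : ℝ) ^ k ≤ S.card := by
    have h3 : (N : ℝ) ^ (k + 1) / (k + 1).factorial - (k + 1) ^ 2 * (N : ℝ) ^ k ≤
        ((N : ℝ) - ((k + 1 : ℕ) : ℝ)) ^ (k + 1) / (k + 1).factorial := by
      rw [le_div_iff₀ (by linarith), sub_mul, div_mul_cancel₀ _ (by positivity)]
      have h4 : (k + 1) ^ 2 * (N : ℝ) ^ k * 1 ≤ (k + 1) ^ 2 * (N : ℝ) ^ k * ((k + 1).factorial : ℝ) := by
        gcongr
      linarith
    have h5 := hch.1
    have h6 : (N : ℝ) ^ (k + 1) / (k + 1).factorial - (k + 1) ^ 2 * (N : ℝ) ^ k ≤ N.choose (k + 1) :=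
      h3.trans h5
    linarith
  have hS3 : (S.card : ℝ) ≤ (N : ℝ) ^ (k + 1) := hS1.trans (div_le_self (by positivity) hfac)
  -- the sum over `S`
  have hA : |∑ I ∈ S, ((Om.filter (fun n => ∀ i ∈ I, occ hit m n i)).card : ℝ) - S.card * (Om.card * p ^ (k + 1))| ≤
      S.card * (2 ^ (k + 1) * (e * Om.card)) := by
    have e1 : (S.card : ℝ) * (Om.card * p ^ (k + 1)) = ∑ _I ∈ S, Om.card * p ^ (k + 1) := by
      rw [sum_const, nsmul_eq_mul]
    rw [e1, ← sum_sub_distrib]
    refine (abs_sum_le_sum_abs _ _).trans ?_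
    have e4 : (S.card : ℝ) * (2 ^ (k + 1) * (e * Om.card)) = ∑ _I ∈ S, 2 ^ (k + 1) * (e * (Om.card : ℝ)) := by
      rw [sum_const, nsmul_eq_mul]
    rw [e4]
    apply sum_le_sum
    intro I hI
    rw [hS, mem_filter] at hI
    have := filter_sep Om hit q N N' e hv m (k + 1) hN I hI.1 hI.2
    rw [← hp] at this
    exact this
  have hB : |(S.card : ℝ) * (Om.card * p ^ (k + 1)) - Om.card * ((N * p) ^ (k + 1) / (k + 1).factorial)| ≤
      (m + (k + 1) ^ 2) * p * (N * p) ^ k * Om.card := by
    have e2 : (S.card : ℝ) * (Om.card * p ^ (k + 1)) - Om.card * ((N * p) ^ (k + 1) / (k + 1).factorial) =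
        -(Om.card * (p ^ (k + 1) * ((N : ℝ) ^ (k + 1) / (k + 1).factorial - S.card))) := by
      rw [mul_pow]
      ring
    rw [e2, abs_neg, abs_of_nonneg (by
      apply mul_nonneg hOm (mul_nonneg (by positivity) _)
      linarith)]
    have e3 : (m + (k + 1) ^ 2) * p * (N * p) ^ k * Om.card =
        Om.card * (p ^ (k + 1) * ((m + (k + 1) ^ 2) * (N : ℝ) ^ k)) := by
      rw [mul_pow]
      ring
    rw [e3]
    apply mul_le_mul_of_nonneg_left _ hOm
    apply mul_le_mul_of_nonneg_left _ (by positivity)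
    linarith
  have hC : (S.card : ℝ) * (2 ^ (k + 1) * (e * Om.card)) ≤ (2 * N) ^ (k + 1) * e * Om.card := by
    have : (S.card : ℝ) * (2 ^ (k + 1) * (e * Om.card)) ≤ (N : ℝ) ^ (k + 1) * (2 ^ (k + 1) * (e * Om.card)) := by
      gcongr
    refine this.trans (le_of_eq ?_)
    rw [mul_pow]
    ring
  have hfin := abs_sub_le (∑ I ∈ S, ((Om.filter (fun n => ∀ i ∈ I, occ hit m n i)).card : ℝ))
    (S.card * (Om.card * p ^ (k + 1))) (Om.card * ((N * p) ^ (k + 1) / (k + 1).factorial))
  calc _ ≤ _ := hfin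
    _ ≤ (2 * N) ^ (k + 1) * e * Om.card + (m + (k + 1) ^ 2) * p * (N * p) ^ k * Om.card := by
      linarith
    _ = _ := by ring

end Pool.Agent.Q236.EV
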