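import Pool.Agent.Q236.EV.Void

set_option autoImplicit false

/-!
# The joint law of consecutive gaps: combinatorial part
-/

namespace Pool.Agent.Q236.EV

open Finset Filter Pool.Agent.H373R2.T7 Pool.Agent.W123.RP Pool.Agent.W123.RU Pool.Agent.TH464.PO
open Pool.Agent.Q236.CP

/-- the next `m` hits after `s`, with the distances in `(a i, J]` -/
def RJ (h : ℕ → Prop) (J : ℕ) : ℕ → (ℕ → ℕ) → ℕ → Prop
  | 0, _, _ => True
  | m + 1, a, s => ∃ d ∈ Ioc (a 0) J, h (s + d - 1) ∧ (∀ j ∈ Ico s (s + d - 1), ¬ h j) ∧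
      RJ h J m (fun i => a (i + 1)) (s + d)

lemma geo (q : ℝ) (a J : ℕ) (hq : 0 ≤ q) (hq1 : q ≤ 1) :
    q ^ a - q ^ J ≤ ∑ d ∈ Ioc a J, (1 - q) * q ^ (d - 1) ∧
    ∑ d ∈ Ioc a J, (1 - q) * q ^ (d - 1) ≤ q ^ a := by
  rcases le_total a J with h | h
  · have key : ∀ K : ℕ, ∑ d ∈ Ioc a (a + K), (1 - q) * q ^ (d - 1) = q ^ a - q ^ (a + K) := by
      intro K
      induction K with
      | zero => simp
      | succ K ih =>
        rw [← add_assoc, Finset.sum_Ioc_succ_top (by omega), ih, Nat.add_sub_cancel]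
        ring
    obtain ⟨K, rfl⟩ := Nat.exists_eq_add_of_le h
    rw [key]
    refine ⟨le_rfl, ?_⟩
    have : 0 ≤ q ^ (a + K) := by positivity
    linarith
  · rw [Ioc_eq_empty (by omega), sum_empty]
    have : q ^ a ≤ q ^ J := pow_le_pow_of_le_one hq hq1 h
    exact ⟨by linarith, by positivity⟩

open Classical in
/-- **The law of the distances of the hit cells.** -/
theorem RJ_law (Om : Finset ℕ) (hit : ℕ → ℕ → Prop) (q : ℝ) (hq : 0 ≤ q) (hq1 : q ≤ 1) (N' : ℕ) (e : ℝ)
    (he : 0 ≤ e) (hv : Void Om hit q N' e) (J m : ℕ) : ∀ (a : ℕ → ℕ) (s : ℕ) (I U : Finset ℕ),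
    I ⊆ range s → U ⊆ range s → Disjoint I U → s + m * J ≤ N' →
    |(((pat Om hit I U).filter (fun n => RJ (hit n) J m a s)).card : ℝ) -
      Om.card * ((1 - q) ^ I.card * q ^ U.card * q ^ (∑ i ∈ range m, a i))| ≤
    (m * q ^ J * ((1 - q) ^ I.card * q ^ U.card) + (2 * J + 1) ^ m * 2 ^ I.card * e) * Om.card := by
  induction m with
  | zero =>
    intro a s I U hI hU hd hs
    have h1 := pattern_law Om hit q N' e hv I U (hI.trans (range_mono (by omega)))
      (hU.trans (range_mono (by omega))) hd
    simp only [RJ, filter_true, range_zero, sum_empty, pow_zero, mul_one, Nat.cast_zero, zero_mul, zero_add,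
      one_mul]
    refine h1.trans (le_of_eq ?_)
    ring
  | succ m ih =>
    intro a s I U hI hU hd hs
    have hOm : (0 : ℝ) ≤ Om.card := Nat.cast_nonneg _
    obtain ⟨a', ha'⟩ : ∃ a' : ℕ → ℕ, a' = fun i => a (i + 1) := ⟨_, rfl⟩
    obtain ⟨F, hF⟩ : ∃ F : ℕ → Finset ℕ, F = fun d =>
      (pat Om hit (insert (s + d - 1) I) (U ∪ Ico s (s + d - 1))).filter (fun n => RJ (hit n) J m a' (s + d)) :=
      ⟨_, rfl⟩
    have hset : (pat Om hit I U).filter (fun n => RJ (hit n) J (m + 1) a s) = (Ioc (a 0) J).biUnion F := by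
      ext n
      rw [mem_filter, mem_biUnion, hF]
      simp only [RJ, ← ha']
      constructor
      · rintro ⟨h1, d, hd, h2, h3, h4⟩
        refine ⟨d, hd, ?_⟩
        rw [mem_filter]
        refine ⟨?_, h4⟩
        unfold pat at h1 ⊢
        rw [mem_filter] at h1 ⊢
        refine ⟨h1.1, ?_, ?_⟩
        · intro i hi
          rcases mem_insert.1 hi with h | h
          · rw [h]; exact h2
          · exact h1.2.1 i h
        · intro i hi
          rcases mem_union.1 hi with h | h
          · exact h1.2.2 i h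
          · exact h3 i h
      · rintro ⟨d, hd, h⟩
        rw [mem_filter] at h
        obtain ⟨h1, h4⟩ := h
        unfold pat at h1 ⊢
        rw [mem_filter] at h1 ⊢
        exact ⟨⟨h1.1, fun i hi => h1.2.1 i (mem_insert_of_mem hi), fun i hi => h1.2.2 i (mem_union_left _ hi)⟩,
          d, hd, h1.2.1 _ (mem_insert_self _ _), fun j hj => h1.2.2 j (mem_union_right _ hj), h4⟩
    have hdisj : ∀ d ∈ Ioc (a 0) J, ∀ d' ∈ Ioc (a 0) J, d < d' → Disjoint (F d) (F d') := by
      intro d hd d' hd' hdd
      rw [mem_Ioc] at hd hd'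
      rw [disjoint_left]
      intro n h1 h2
      rw [hF] at h1 h2
      simp only [mem_filter] at h1 h2
      unfold pat at h1 h2
      rw [mem_filter] at h1 h2
      refine h2.1.2.2 (s + d - 1) (mem_union_right _ ?_) (h1.1.2.1 _ (mem_insert_self _ _))
      rw [mem_Ico]
      omega
    have hcard : ((((pat Om hit I U).filter (fun n => RJ (hit n) J (m + 1) a s)).card : ℕ) : ℝ) =
        ∑ d ∈ Ioc (a 0) J, ((F d).card : ℝ) := by
      rw [hset, card_biUnion]
      · push_cast
        rfl
      · intro d hd d' hd' hne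
        rcases lt_or_gt_of_ne hne with h | h
        · exact hdisj d hd d' hd' h
        · exact (hdisj d' hd' d hd h).symm
    obtain ⟨P, hP⟩ : ∃ P : ℝ, P = (1 - q) ^ I.card * q ^ U.card := ⟨_, rfl⟩
    have hP0 : 0 ≤ P := by rw [hP]; exact mul_nonneg (pow_nonneg (by linarith) _) (by positivity)
    obtain ⟨S, hS⟩ : ∃ S : ℝ, S = q ^ (∑ i ∈ range m, a' i) := ⟨_, rfl⟩
    have hS0 : 0 ≤ S := by rw [hS]; positivity
    have hS1 : S ≤ 1 := by rw [hS]; exact pow_le_one₀ hq hq1
    have hJ0 : (0 : ℝ) ≤ J := Nat.cast_nonneg J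
    have hm0 : (0 : ℝ) ≤ m := Nat.cast_nonneg m
    have hone : ∀ d ∈ Ioc (a 0) J, |((F d).card : ℝ) - Om.card * (P * S) * ((1 - q) * q ^ (d - 1))| ≤
        m * q ^ J * P * Om.card * ((1 - q) * q ^ (d - 1)) + (2 * J + 1) ^ m * 2 ^ (I.card + 1) * e * Om.card := by
      intro d hdd
      rw [mem_Ioc] at hdd
      have hs1 : s + d - 1 ∉ I := by
        intro h
        have := mem_range.1 (hI h)
        omega
      have hUd : Disjoint U (Ico s (s + d - 1)) := by
        rw [disjoint_left]
        intro x hx hx2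
        have := mem_range.1 (hU hx)
        rw [mem_Ico] at hx2
        omega
      have hcI : (insert (s + d - 1) I).card = I.card + 1 := card_insert_of_notMem hs1
      have hcU : (U ∪ Ico s (s + d - 1)).card = U.card + (d - 1) := by
        rw [card_union_of_disjoint hUd, Nat.card_Ico]
        congr 1
        omega
      have h1 := ih a' (s + d) (insert (s + d - 1) I) (U ∪ Ico s (s + d - 1)) (by
          intro x hx
          rw [mem_range]
          rcases mem_insert.1 hx with h | h
          · omega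
          · have := mem_range.1 (hI h)
            omega) (by
          intro x hx
          rw [mem_range]
          rcases mem_union.1 hx with h | h
          · have := mem_range.1 (hU h)
            omega
          · rw [mem_Ico] at h
            omega) (by
          rw [disjoint_left]
          intro x hx hx2
          rcases mem_insert.1 hx with h | h
          · rcases mem_union.1 hx2 with h2 | h2
            · have := mem_range.1 (hU h2)
              omega
            · rw [mem_Ico] at h2
              omega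
          · rcases mem_union.1 hx2 with h2 | h2
            · exact disjoint_left.1 hd h h2
            · have := mem_range.1 (hI h)
              rw [mem_Ico] at h2
              omega) (by
          have h3 : (m + 1) * J = m * J + J := by ring
          omega)
      rw [hcI, hcU] at h1
      have e1 : (Om.card : ℝ) * ((1 - q) ^ (I.card + 1) * q ^ (U.card + (d - 1)) * q ^ (∑ i ∈ range m, a' i)) =
          Om.card * (P * S) * ((1 - q) * q ^ (d - 1)) := by
        rw [hP, hS, pow_succ, pow_add]
        ring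
      have e2 : (m * q ^ J * ((1 - q) ^ (I.card + 1) * q ^ (U.card + (d - 1))) +
          (2 * J + 1) ^ m * 2 ^ (I.card + 1) * e) * Om.card =
          m * q ^ J * P * Om.card * ((1 - q) * q ^ (d - 1)) +
            (2 * J + 1) ^ m * 2 ^ (I.card + 1) * e * Om.card := by
        rw [hP, pow_succ (1 - q), pow_add q]
        ring
      rw [e1, e2] at h1
      rw [hF]
      exact h1
    obtain ⟨G, hG⟩ : ∃ G : ℝ, G = ∑ d ∈ Ioc (a 0) J, (1 - q) * q ^ (d - 1) := ⟨_, rfl⟩
    obtain ⟨hG1, hG2⟩ := geo q (a 0) J hq hq1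
    rw [← hG] at hG1 hG2
    have hG0 : 0 ≤ G := by
      rw [hG]
      exact sum_nonneg fun d _ => mul_nonneg (by linarith) (by positivity)
    have hG3 : G ≤ 1 := hG2.trans (pow_le_one₀ hq hq1)
    have hmain : |∑ d ∈ Ioc (a 0) J, ((F d).card : ℝ) - Om.card * (P * S) * G| ≤
        m * q ^ J * P * Om.card * G + J * ((2 * J + 1) ^ m * 2 ^ (I.card + 1) * e * Om.card) := by
      rw [hG, mul_sum, ← sum_sub_distrib]
      refine (abs_sum_le_sum_abs _ _).trans ((sum_le_sum hone).trans ?_)
      rw [sum_add_distrib, ← mul_sum, sum_const, nsmul_eq_mul, Nat.card_Ioc]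
      apply add_le_add le_rfl
      apply mul_le_mul_of_nonneg_right _ (by positivity)
      exact_mod_cast Nat.sub_le J (a 0)
    have hsumA : ∑ i ∈ range (m + 1), a i = a 0 + ∑ i ∈ range m, a' i := by
      rw [sum_range_succ', ha', add_comm]
    have hdiff : |Om.card * (P * S) * G - Om.card * (P * q ^ (∑ i ∈ range (m + 1), a i))| ≤
        q ^ J * P * Om.card := by
      rw [hsumA, pow_add, ← hS]
      have e3 : Om.card * (P * S) * G - Om.card * (P * (q ^ a 0 * S)) = Om.card * P * (S * (G - q ^ a 0)) := by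
        ring
      rw [e3, abs_mul, abs_of_nonneg (by positivity : 0 ≤ (Om.card : ℝ) * P), abs_mul, abs_of_nonneg hS0]
      have h2 : |G - q ^ a 0| ≤ q ^ J := by
        rw [abs_le]
        have : 0 ≤ q ^ J := by positivity
        constructor <;> linarith
      have h3 : S * |G - q ^ a 0| ≤ 1 * q ^ J := mul_le_mul hS1 h2 (abs_nonneg _) zero_le_one
      calc Om.card * P * (S * |G - q ^ a 0|) ≤ Om.card * P * (1 * q ^ J) :=
            mul_le_mul_of_nonneg_left h3 (by positivity)
        _ = _ := by ring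
    rw [hcard, ← hP]
    have h9 := abs_sub_le (∑ d ∈ Ioc (a 0) J, ((F d).card : ℝ)) (Om.card * (P * S) * G)
      (Om.card * (P * q ^ (∑ i ∈ range (m + 1), a i)))
    have h10 : m * q ^ J * P * Om.card * G ≤ m * q ^ J * P * Om.card := by
      have : 0 ≤ m * q ^ J * P * Om.card := by positivity
      nlinarith
    have h11 : J * ((2 * (J : ℝ) + 1) ^ m * 2 ^ (I.card + 1) * e * Om.card) ≤
        (2 * (J : ℝ) + 1) ^ (m + 1) * 2 ^ I.card * e * Om.card := by
      have e4 : J * ((2 * (J : ℝ) + 1) ^ m * 2 ^ (I.card + 1) * e * Om.card) =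
          (2 * J) * ((2 * (J : ℝ) + 1) ^ m * 2 ^ I.card * e * Om.card) := by
        rw [pow_succ]
        ring
      have e5 : (2 * (J : ℝ) + 1) ^ (m + 1) * 2 ^ I.card * e * Om.card =
          (2 * J + 1) * ((2 * (J : ℝ) + 1) ^ m * 2 ^ I.card * e * Om.card) := by
        rw [pow_succ]
        ring
      rw [e4, e5]
      apply mul_le_mul_of_nonneg_right (by linarith) (by positivity)
    push_cast
    calc _ ≤ _ := h9
      _ ≤ (m * q ^ J * P * Om.card + (2 * (J : ℝ) + 1) ^ (m + 1) * 2 ^ I.card * e * Om.card) +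
          q ^ J * P * Om.card := by linarith
      _ = _ := by ring

end Pool.Agent.Q236.EV
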