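import Pool.Agent.Q236.EV.Gaps

set_option autoImplicit false

/-!
# The joint law of consecutive gaps: from cells to gaps
-/

namespace Pool.Agent.Q236.EV

open Finset Filter Pool.Agent.H373R2.T7 Pool.Agent.W123.RP Pool.Agent.W123.RU Pool.Agent.TH464.PO
open Pool.Agent.Q236.CP

/-- `g'` is the next good integer after `g` -/
def Nx (good : ℕ → Prop) (g g' : ℕ) : Prop := g < g' ∧ good g' ∧ ∀ c ∈ Ioo g g', ¬ good c

/-- the next `m` gaps after `g` exceed `t 0, t 1, ...` -/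
def Gap (good : ℕ → Prop) : ℕ → (ℕ → ℕ) → ℕ → Prop
  | 0, _, _ => True
  | m + 1, t, g => ∃ g', Nx good g g' ∧ g + t 0 < g' ∧ Gap good m (fun i => t (i + 1)) g'

/-- every cell contains at most one sifted element -/
def Simple (Q : ℕ → ℕ → Prop) (y Δ N' n : ℕ) : Prop :=
  ∀ i < N', ∀ b ∈ Ioc (i * Δ) ((i + 1) * Δ), ∀ b' ∈ Ioc (i * Δ) ((i + 1) * Δ), Sf Q y (n + b) →
    Sf Q y (n + b') → b = b'

lemma cell_of (Δ x : ℕ) (hΔ : 1 ≤ Δ) (hx : 1 ≤ x) : ∃ i, x ∈ Ioc (i * Δ) ((i + 1) * Δ) := by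
  refine ⟨(x - 1) / Δ, ?_⟩
  rw [mem_Ioc]
  have h2 := Nat.div_add_mod (x - 1) Δ
  have h3 := Nat.mod_lt (x - 1) (show Δ > 0 by omega)
  have e : Δ * ((x - 1) / Δ) = (x - 1) / Δ * Δ := mul_comm _ _
  have e2 : ((x - 1) / Δ + 1) * Δ = (x - 1) / Δ * Δ + Δ := by ring
  omega

lemma RJ_Gap (Q : ℕ → ℕ → Prop) (y Δ N' n J : ℕ) (hΔ : 1 ≤ Δ) (hS : Simple Q y Δ N' n) (m : ℕ) :
    ∀ (t : ℕ → ℕ) (s g : ℕ), s + m * J ≤ N' → g ≤ n + s * Δ → n + s * Δ < g + Δ →
      (∀ c ∈ Ioc g (n + s * Δ), ¬ Sf Q y c) → RJ (hit Q y Δ n) J m (fun i => t i / Δ + 1) s →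
      Gap (Sf Q y) m t g := by
  induction m with
  | zero => intro t s g _ _ _ _ _; trivial
  | succ m ih =>
    intro t s g hs h1 h2 h3 hR
    obtain ⟨d, hd, ⟨b, hb, hsb⟩, hv, hR'⟩ := hR
    simp only [mem_Ioc] at hd
    obtain ⟨a0, ha0⟩ : ∃ a0, a0 = t 0 / Δ := ⟨_, rfl⟩
    rw [← ha0] at hd
    have hb' := hb
    rw [mem_Ioc] at hb'
    have e1 : (s + d - 1 + 1) * Δ = (s + d) * Δ := by
      congr 1
      omega
    have e2 : (s + d) * Δ = (s + d - 1) * Δ + Δ := by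
      obtain ⟨k, hk⟩ : ∃ k, s + d = k + 1 := ⟨s + d - 1, by omega⟩
      rw [hk, Nat.add_sub_cancel]
      ring
    have e3 : (m + 1) * J = m * J + J := by ring
    have hsd : s * Δ + (a0 + 1) * Δ ≤ (s + d - 1) * Δ := by
      rw [← add_mul]
      apply Nat.mul_le_mul_right
      omega
    have ht : t 0 < (a0 + 1) * Δ := by
      rw [ha0, add_mul, one_mul]
      exact Nat.lt_div_mul_add (by omega)
    rw [e1] at hb'
    have hsame : ∀ c, n + (s + d - 1) * Δ < c → c ≤ n + (s + d) * Δ → Sf Q y c → c = n + b := by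
      intro c hc1 hc2 hc3
      have := hS (s + d - 1) (by omega) (c - n) (by rw [mem_Ioc, e1]; omega) b hb
        (by rwa [show n + (c - n) = c by omega]) hsb
      omega
    refine ⟨n + b, ⟨by omega, hsb, ?_⟩, by omega, ?_⟩
    · intro c hc hcs
      rw [mem_Ioo] at hc
      by_cases h4 : c ≤ n + s * Δ
      · exact h3 c (mem_Ioc.2 ⟨hc.1, h4⟩) hcs
      · obtain ⟨j, hj⟩ := cell_of Δ (c - n) hΔ (by omega)
        have hj' := hj
        rw [mem_Ioc] at hj'
        have h5 : s ≤ j := by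
          by_contra hcon
          have : (j + 1) * Δ ≤ s * Δ := Nat.mul_le_mul_right _ (by omega)
          omega
        by_cases h6 : j < s + d - 1
        · exact hv j (mem_Ico.2 ⟨h5, h6⟩) ⟨c - n, hj, by rwa [show n + (c - n) = c by omega]⟩
        · have h7 : (s + d - 1) * Δ ≤ j * Δ := Nat.mul_le_mul_right _ (by omega)
          have := hsame c (by omega) (by omega) hcs
          omega
    · apply ih (fun i => t (i + 1)) (s + d) (n + b) (by omega) (by omega) (by omega) _ hR'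
      intro c hc hcs
      rw [mem_Ioc] at hc
      have := hsame c (by omega) (by omega) hcs
      omega

lemma Gap_RJ (Q : ℕ → ℕ → Prop) (y Δ N' n J : ℕ) (hΔ : 1 ≤ Δ) (hS : Simple Q y Δ N' n) (m : ℕ) :
    ∀ (t : ℕ → ℕ) (s g : ℕ), s + m * J ≤ N' → g ≤ n + s * Δ → n + s * Δ < g + Δ →
      (∀ c ∈ Ioc g (n + s * Δ), ¬ Sf Q y c) → RJ (hit Q y Δ n) J m (fun _ => 0) s →
      Gap (Sf Q y) m t g → RJ (hit Q y Δ n) J m (fun i => t i / Δ - 1) s := by
  induction m with
  | zero => intro t s g _ _ _ _ _ _; trivial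
  | succ m ih =>
    intro t s g hs h1 h2 h3 hR hG
    obtain ⟨d, hd, ⟨b, hb, hsb⟩, hv, hR'⟩ := hR
    obtain ⟨g', ⟨hg1, hg2, hg3⟩, hgt, hG'⟩ := hG
    simp only [mem_Ioc] at hd
    have hb' := hb
    rw [mem_Ioc] at hb'
    have e1 : (s + d - 1 + 1) * Δ = (s + d) * Δ := by
      congr 1
      omega
    have e2 : (s + d) * Δ = (s + d - 1) * Δ + Δ := by
      obtain ⟨k, hk⟩ : ∃ k, s + d = k + 1 := ⟨s + d - 1, by omega⟩
      rw [hk, Nat.add_sub_cancel]
      ring
    have e3 : (m + 1) * J = m * J + J := by ring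
    have e4 : s * Δ ≤ (s + d - 1) * Δ := Nat.mul_le_mul_right _ (by omega)
    rw [e1] at hb'
    have hsame : ∀ c, n + (s + d - 1) * Δ < c → c ≤ n + (s + d) * Δ → Sf Q y c → c = n + b := by
      intro c hc1 hc2 hc3
      have := hS (s + d - 1) (by omega) (c - n) (by rw [mem_Ioc, e1]; omega) b hb
        (by rwa [show n + (c - n) = c by omega]) hsb
      omega
    have hg4 : g' ≤ n + b := by
      by_contra hcon
      exact hg3 (n + b) (mem_Ioo.2 ⟨by omega, by omega⟩) hsb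
    have hg5 : n + s * Δ < g' := by
      by_contra hcon
      exact h3 g' (mem_Ioc.2 ⟨hg1, by omega⟩) hg2
    have hg6 : n + (s + d - 1) * Δ < g' := by
      by_contra hcon
      obtain ⟨j, hj⟩ := cell_of Δ (g' - n) hΔ (by omega)
      have hj' := hj
      rw [mem_Ioc] at hj'
      have h5 : s ≤ j := by
        by_contra hcon
        have : (j + 1) * Δ ≤ s * Δ := Nat.mul_le_mul_right _ (by omega)
        omega
      have h6 : j < s + d - 1 := by
        by_contra hcon2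
        have h7 : (s + d - 1) * Δ ≤ j * Δ := Nat.mul_le_mul_right _ (by omega)
        omega
      exact hv j (mem_Ico.2 ⟨h5, h6⟩) ⟨g' - n, hj, by rwa [show n + (g' - n) = g' by omega]⟩
    have hg7 : g' = n + b := hsame g' hg6 (by omega) hg2
    refine ⟨d, ?_, ⟨b, hb, hsb⟩, hv, ?_⟩
    · simp only [mem_Ioc]
      refine ⟨?_, hd.2⟩
      have h8 : t 0 < (d + 1) * Δ := by
        have h9 : (s + d) * Δ = s * Δ + d * Δ := by ring
        have h10 : (d + 1) * Δ = d * Δ + Δ := by ring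
        omega
      have h11 : t 0 / Δ < d + 1 := (Nat.div_lt_iff_lt_mul (by omega)).2 h8
      omega
    · apply ih (fun i => t (i + 1)) (s + d) g' (by omega) (by omega) (by omega) _ hR' hG'
      intro c hc hcs
      rw [mem_Ioc] at hc
      have := hsame c (by omega) (by omega) hcs
      omega

end Pool.Agent.Q236.EV
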