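import Pool.Agent.Q236.EV.Gaps2

set_option autoImplicit false

/-!
# The joint law of consecutive gaps, for one sieve
-/

namespace Pool.Agent.Q236.EV

open Finset Filter Pool.Agent.H373R2.T7 Pool.Agent.W123.RP Pool.Agent.W123.RU Pool.Agent.TH464.PO
open Pool.Agent.Q236.CP

open Classical in
/-- **The Poisson law** for unions of cells, uniform in the sieve. -/
theorem cell_law (c : ℕ) (hc : 1 ≤ c) (N' : ℕ) (hN' : 1 ≤ N') (κ e : ℝ) (hκ : 0 ≤ κ) (he : 0 < e) :
    ∃ (K0 y0 T0 R0 : ℕ) (η' : ℝ), 0 < η' ∧ ∀ (Q : ℕ → ℕ → Prop) (Z Y y Δ : ℕ), PerB Q c →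
      (∀ p : ℕ, p.Prime → nuB Q p < p) → y0 ≤ y → y ^ K0 ≤ Y → T0 ≤ N' * Δ → (N' * Δ) ^ R0 ≤ Y →
      (∀ t ∈ Icc 1 (N' * Δ),
        ((((pz y).filter (fun p : ℕ => N' * Δ < p ∧ CoG Q p t)).card : ℕ) : ℝ) ≤ η' * ((N' * Δ : ℕ) : ℝ)) →
      Δ * Vq Q y ≤ κ → ∀ H : Finset ℕ, H ⊆ {0} →
      |((OmZ Q y H Z Y).card : ℝ) - Y * Vq (QH Q H) y| ≤ e * (Y * Vq (QH Q H) y) ∧
      ∀ U : Finset ℕ, U ⊆ range N' → U.Nonempty → ∀ A : Finset ℕ,
        |(((OmZ Q y H Z Y).filter (fun n => NB Q y (cells Δ U) n ∈ A)).card : ℝ) - (OmZ Q y H Z Y).card *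
          ∑ j ∈ A, Real.exp (-(U.card * (Δ * Vq Q y))) * (U.card * (Δ * Vq Q y)) ^ j / j.factorial| ≤
          e * (OmZ Q y H Z Y).card := by
  have hNr : (1 : ℝ) ≤ N' := by exact_mod_cast hN'
  obtain ⟨K0, y0, T0, R0, η', hη', hlaw⟩ := law' c 1 hc (fun w => N' * Mw w) (fun w => by positivity)
    (1 / N') (N' * κ) e (by positivity) (by rw [div_le_one (by linarith)]; exact hNr) (by positivity) he
  refine ⟨K0, y0, T0, R0, η', hη', ?_⟩
  intro Q Z Y y Δ hQ hadm hy hyY hT0 hTR hlarge hΔκ H hH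
  have hV0 : 0 < Vq Q y := Vq_pos Q hadm y
  have hQt := perB_Qt Q c hQ Z
  have hadmt : ∀ p : ℕ, p.Prime → nuB (Qt Q Z) p < p := fun p hp => by
    rw [nuB_Qt Q c hQ]
    exact hadm p hp
  have hadmHt : ∀ p : ℕ, p.Prime → nuB (QH (Qt Q Z) H) p < p := fun p hp =>
    (nuB_QH_zero (Qt Q Z) H hH p).trans_lt (hadmt p hp)
  have hlarget : ∀ t ∈ Icc 1 (N' * Δ),
      ((((pz y).filter (fun p : ℕ => N' * Δ < p ∧ CoG (Qt Q Z) p t)).card : ℕ) : ℝ) ≤
        η' * ((N' * Δ : ℕ) : ℝ) := by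
    intro t ht
    refine le_trans ?_ (hlarge t ht)
    have : ((pz y).filter (fun p : ℕ => N' * Δ < p ∧ CoG (Qt Q Z) p t)).card ≤
        ((pz y).filter (fun p : ℕ => N' * Δ < p ∧ CoG Q p t)).card := by
      apply card_le_card
      intro p hp
      rw [mem_filter] at hp ⊢
      obtain ⟨h1, h2, m, h3, h4⟩ := hp
      refine ⟨h1, h2, m + Z, h3, ?_⟩
      unfold Qt at h4
      rwa [show m + t + Z = m + Z + t by ring] at h4
    exact_mod_cast this
  have hfix : ∀ U : Finset ℕ, U ⊆ range N' → U.Nonempty →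
      Fix (Qt Q Z) 1 (N' * Δ) (1 / N') (fun w => N' * Mw w) H (cells Δ U) (U.card * Δ) := by
    intro U hU hne
    refine ⟨?_, ?_, cells_sub Δ N' U hU, ?_, ?_, ?_⟩
    · exact (card_le_card hH).trans (by simp)
    · intro a ha
      have : a = 0 := by simpa using hH ha
      omega
    · rw [disjoint_left]
      intro a ha hb
      have h1 : a = 0 := by simpa using hH ha
      have h2 := cells_sub Δ N' U hU hb
      rw [mem_Icc] at h2
      omega
    · have h1 : (1 : ℝ) ≤ U.card := by exact_mod_cast hne.card_pos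
      have h2 : (0 : ℝ) ≤ Δ := Nat.cast_nonneg Δ
      push_cast
      have e1 : 1 / (N' : ℝ) * (N' * Δ) = Δ := by field_simp
      rw [e1]
      nlinarith
    · intro w
      exact reg_cells (Qt Q Z) c hQt w Δ N' U (by
        have := card_le_card hU
        rwa [card_range] at this)
  have hOmZ : (OmZ Q y H Z Y).card = (Om (Qt Q Z) y H Y).card := by
    have := card_shift Q y H ∅ Z Y (fun _ => True)
    simpa using this
  rw [hOmZ]
  have hbase : ∀ U : Finset ℕ, U ⊆ range N' → U.Nonempty →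
      |((Om (Qt Q Z) y H Y).card : ℝ) - Y * Vq (QH Q H) y| ≤ e * (Y * Vq (QH Q H) y) ∧
      ∀ A : Finset ℕ, |(((OmZ Q y H Z Y).filter (fun n => NB Q y (cells Δ U) n ∈ A)).card : ℝ) -
        (Om (Qt Q Z) y H Y).card *
          ∑ j ∈ A, Real.exp (-(U.card * (Δ * Vq Q y))) * (U.card * (Δ * Vq Q y)) ^ j / j.factorial| ≤
        e * (Om (Qt Q Z) y H Y).card := by
    intro U hU hne
    have hUN : (U.card : ℝ) ≤ N' := by
      have := card_le_card hU
      rw [card_range] at this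
      exact_mod_cast this
    obtain ⟨h1, h2⟩ := hlaw Y y (N' * Δ) hy hyY hT0 hTR (Qt Q Z) hQt hadmt hlarget H (cells Δ U)
      (U.card * Δ) (hfix U hU hne) hadmHt (by
        rw [Vq_Qt Q c hQ]
        calc (U.card : ℝ) * Δ * Vq Q y = U.card * (Δ * Vq Q y) := by ring
          _ ≤ N' * κ := by
            apply mul_le_mul hUN hΔκ (by positivity) (by positivity))
    rw [Vq_QH_Qt Q c hQ] at h1
    refine ⟨h1, fun A => ?_⟩
    have h3 := h2 A
    rw [Vq_Qt Q c hQ, mul_assoc] at h3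
    have e3 : ((OmZ Q y H Z Y).filter (fun n => NB Q y (cells Δ U) n ∈ A)).card =
        ((Om (Qt Q Z) y H Y).filter (fun n => NB (Qt Q Z) y (cells Δ U) n ∈ A)).card := by
      have h4 := card_shift Q y H (cells Δ U) Z Y (fun j => j ∈ A)
      convert h4
    rw [e3]
    exact h3
  exact ⟨(hbase {0} (by
    intro x hx
    rw [mem_singleton] at hx
    rw [hx]
    exact mem_range.2 (by omega)) (singleton_nonempty 0)).1, fun U hU hne => (hbase U hU hne).2⟩

open Classical in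
lemma void_of_cell (Q : ℕ → ℕ → Prop) (y Δ N' : ℕ) (Om : Finset ℕ) (δ e : ℝ) (he : 0 ≤ e)
    (h : ∀ U : Finset ℕ, U ⊆ range N' → U.Nonempty → ∀ A : Finset ℕ,
        |((Om.filter (fun n => NB Q y (cells Δ U) n ∈ A)).card : ℝ) - Om.card *
          ∑ j ∈ A, Real.exp (-(U.card * δ)) * (U.card * δ) ^ j / j.factorial| ≤ e * Om.card) :
    Void Om (hit Q y Δ) (Real.exp (-δ)) N' e := by
  intro U hU
  rcases U.eq_empty_or_nonempty with h1 | h1
  · rw [h1]
    have : pat Om (hit Q y Δ) ∅ ∅ = Om := by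
      unfold pat
      simp
    rw [this, card_empty, pow_zero, mul_one, sub_self, abs_zero]
    positivity
  · have h3 := h U hU h1 {0}
    rw [sum_singleton] at h3
    have e2 : Real.exp (-((U.card : ℝ) * δ)) * ((U.card : ℝ) * δ) ^ 0 / ((Nat.factorial 0 : ℕ) : ℝ) =
        Real.exp (-δ) ^ U.card := by
      rw [pow_zero, Nat.factorial_zero, Nat.cast_one, mul_one, div_one, ← Real.exp_nat_mul]
      congr 1
      ring
    rw [e2] at h3
    have h5 : pat Om (hit Q y Δ) ∅ U = Om.filter (fun n => NB Q y (cells Δ U) n ∈ ({0} : Finset ℕ)) := by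
      unfold pat
      apply filter_congr
      intro n _
      rw [mem_singleton, nb_cells]
      simp
    rw [h5]
    exact h3

open Classical in
/-- cells with two sifted elements are rare -/
lemma simple_of_cell (Q : ℕ → ℕ → Prop) (y Δ N' : ℕ) (Om : Finset ℕ) (δ e : ℝ) (hδ : 0 ≤ δ) (_he : 0 ≤ e)
    (h : ∀ U : Finset ℕ, U ⊆ range N' → U.Nonempty → ∀ A : Finset ℕ,
        |((Om.filter (fun n => NB Q y (cells Δ U) n ∈ A)).card : ℝ) - Om.card *
          ∑ j ∈ A, Real.exp (-(U.card * δ)) * (U.card * δ) ^ j / j.factorial| ≤ e * Om.card) :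
    ((Om.filter (fun n => ¬ Simple Q y Δ N' n)).card : ℝ) ≤ N' * ((δ ^ 2 + e) * Om.card) := by
  have hOm : (0 : ℝ) ≤ Om.card := Nat.cast_nonneg _
  have hsub : Om.filter (fun n => ¬ Simple Q y Δ N' n) ⊆
      (range N').biUnion (fun i => Om.filter (fun n => ¬ NB Q y (cells Δ {i}) n ∈ ({0, 1} : Finset ℕ))) := by
    intro n hn
    rw [mem_filter] at hn
    obtain ⟨h1, h2⟩ := hn
    unfold Simple at h2
    push Not at h2
    obtain ⟨i, hi, b, hb, b', hb', hs, hs', hne⟩ := h2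
    rw [mem_biUnion]
    refine ⟨i, mem_range.2 hi, ?_⟩
    rw [mem_filter]
    refine ⟨h1, ?_⟩
    have h3 : 2 ≤ NB Q y (cells Δ {i}) n := by
      unfold NB cells
      rw [singleton_biUnion]
      have h4 : ({b, b'} : Finset ℕ) ⊆ (Ioc (i * Δ) ((i + 1) * Δ)).filter (fun h => Sf Q y (n + h)) := by
        intro x hx
        rw [mem_insert, mem_singleton] at hx
        rcases hx with rfl | rfl
        · exact mem_filter.2 ⟨hb, hs⟩
        · exact mem_filter.2 ⟨hb', hs'⟩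
      have h5 := card_le_card h4
      rwa [card_pair hne] at h5
    rw [mem_insert, mem_singleton]
    omega
  have hone : ∀ i ∈ range N',
      ((Om.filter (fun n => ¬ NB Q y (cells Δ {i}) n ∈ ({0, 1} : Finset ℕ))).card : ℝ) ≤
        (δ ^ 2 + e) * Om.card := by
    intro i hi
    have h1 := h {i} (singleton_subset_iff.2 hi) (singleton_nonempty i) {0, 1}
    rw [sum_pair (by norm_num), card_singleton] at h1
    simp only [Nat.cast_one, one_mul, pow_zero, mul_one, Nat.factorial_zero, div_one, pow_one,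
      Nat.factorial_one] at h1
    have h2 := card_filter_add_card_filter_not (s := Om)
      (fun n => NB Q y (cells Δ {i}) n ∈ ({0, 1} : Finset ℕ))
    have h3 : ((Om.filter (fun n => NB Q y (cells Δ {i}) n ∈ ({0, 1} : Finset ℕ))).card : ℝ) +
        (Om.filter (fun n => ¬ NB Q y (cells Δ {i}) n ∈ ({0, 1} : Finset ℕ))).card = Om.card := by
      exact_mod_cast h2
    have h4 := (abs_le.1 h1).1
    have h5 : 1 - δ ^ 2 ≤ Real.exp (-δ) + Real.exp (-δ) * δ := by
      have := Real.add_one_le_exp (-δ)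
      nlinarith
    have h6 : (Om.card : ℝ) * (1 - δ ^ 2) ≤ Om.card * (Real.exp (-δ) + Real.exp (-δ) * δ) :=
      mul_le_mul_of_nonneg_left h5 hOm
    linarith
  calc ((Om.filter (fun n => ¬ Simple Q y Δ N' n)).card : ℝ) ≤
        (((range N').biUnion (fun i => Om.filter
          (fun n => ¬ NB Q y (cells Δ {i}) n ∈ ({0, 1} : Finset ℕ)))).card : ℝ) := by
        exact_mod_cast card_le_card hsub
    _ ≤ ∑ i ∈ range N', ((Om.filter (fun n => ¬ NB Q y (cells Δ {i}) n ∈ ({0, 1} : Finset ℕ))).card : ℝ) := by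
        exact_mod_cast card_biUnion_le
    _ ≤ ∑ _i ∈ range N', (δ ^ 2 + e) * (Om.card : ℝ) := sum_le_sum hone
    _ = _ := by rw [sum_const, card_range, nsmul_eq_mul]

open Classical in
/-- **The joint law of `m` consecutive gaps**, for one sieve. -/
theorem gaps_one (m : ℕ) (ε : ℝ) (hε : 0 < ε) :
    ∃ κ : ℝ, 0 < κ ∧ κ ≤ 1 / 4 ∧ ∃ (N' : ℕ) (e : ℝ), 1 ≤ N' ∧ 0 < e ∧
      ∀ (Q : ℕ → ℕ → Prop) (y Δ : ℕ) (Om : Finset ℕ) (V : ℝ), 0 < V → κ ≤ Δ * V → Δ * V ≤ 2 * κ →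
        (∀ U : Finset ℕ, U ⊆ range N' → U.Nonempty → ∀ A : Finset ℕ,
          |((Om.filter (fun n => NB Q y (cells Δ U) n ∈ A)).card : ℝ) - Om.card *
            ∑ j ∈ A, Real.exp (-(U.card * (Δ * V))) * (U.card * (Δ * V)) ^ j / j.factorial| ≤ e * Om.card) →
        ∀ t : ℕ → ℕ, |((Om.filter (fun n => Gap (Sf Q y) m t n)).card : ℝ) -
          Om.card * Real.exp (-((∑ i ∈ range m, (t i : ℝ)) * V))| ≤ ε * Om.card := by
  obtain ⟨Λ, hΛ⟩ : ∃ Λ : ℝ, Λ = Real.log (1 + 32 * m / ε) := ⟨_, rfl⟩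
  have hm0 : (0 : ℝ) ≤ m := Nat.cast_nonneg m
  have hΛ0 : 0 ≤ Λ := by
    rw [hΛ]
    apply Real.log_nonneg
    have : 0 ≤ 32 * m / ε := by positivity
    linarith
  have hΛe : m * Real.exp (-Λ) ≤ ε / 32 := by
    have h1 : 0 < 1 + 32 * m / ε := by positivity
    rw [hΛ, Real.exp_neg, Real.exp_log h1, ← div_eq_mul_inv, div_le_iff₀ h1]
    have h2 : ε / 32 * (1 + 32 * m / ε) = ε / 32 + m := by
      field_simp
    rw [h2]
    linarith
  obtain ⟨D, hD⟩ : ∃ D : ℝ, D = 32 * (m + m * Λ + m + 1) := ⟨_, rfl⟩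
  have hD0 : 0 < D := by rw [hD]; positivity
  obtain ⟨κ, hκ⟩ : ∃ κ : ℝ, κ = min (1 / (4 * ((m : ℝ) + 1))) (ε / D) := ⟨_, rfl⟩
  have hκ0 : 0 < κ := by rw [hκ]; positivity
  have hκm : κ * (4 * (m + 1)) ≤ 1 := by
    have : κ ≤ 1 / (4 * (m + 1)) := by rw [hκ]; exact min_le_left _ _
    rwa [le_div_iff₀ (by positivity)] at this
  have hκ4 : κ ≤ 1 / 4 := by nlinarith
  have hκD : κ * D ≤ ε := by
    have : κ ≤ ε / D := by rw [hκ]; exact min_le_right _ _
    rwa [le_div_iff₀ hD0] at this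
  obtain ⟨J, hJ⟩ : ∃ J : ℕ, J = ⌈Λ / κ⌉₊ := ⟨_, rfl⟩
  have hJ1 : Λ ≤ κ * J := by
    have := Nat.le_ceil (Λ / κ)
    rw [← hJ, div_le_iff₀ hκ0] at this
    linarith
  have hJ2 : κ * J ≤ Λ + κ := by
    have := (Nat.ceil_lt_add_one (show 0 ≤ Λ / κ by positivity)).le
    rw [← hJ] at this
    calc κ * J ≤ κ * (Λ / κ + 1) := mul_le_mul_of_nonneg_left this hκ0.le
      _ = Λ + κ := by field_simp
  have hJ0 : (0 : ℝ) ≤ J := Nat.cast_nonneg J
  obtain ⟨e, he⟩ : ∃ e : ℝ, e = (ε / 8) / ((m * J + 1 : ℕ) + 2 * (2 * J + 1) ^ m) := ⟨_, rfl⟩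
  have hden : (0 : ℝ) < (m * J + 1 : ℕ) + 2 * (2 * (J : ℝ) + 1) ^ m := by positivity
  have he0 : 0 < e := by rw [he]; positivity
  have hee : e * ((m * J + 1 : ℕ) + 2 * (2 * (J : ℝ) + 1) ^ m) = ε / 8 := by
    rw [he, div_mul_cancel₀ _ hden.ne']
  refine ⟨κ, hκ0, hκ4, m * J + 1, e, by omega, he0, ?_⟩
  intro Q y Δ Om V hV hΔ1 hΔ2 hcell t
  obtain ⟨δ, hδ⟩ : ∃ δ : ℝ, δ = Δ * V := ⟨_, rfl⟩
  rw [← hδ] at hΔ1 hΔ2 hcell
  have hδ0 : 0 < δ := by linarith
  have hΔpos : 1 ≤ Δ := by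
    rcases Nat.eq_zero_or_pos Δ with h | h
    · rw [h, Nat.cast_zero, zero_mul] at hδ
      linarith
    · exact h
  have hOm : (0 : ℝ) ≤ Om.card := Nat.cast_nonneg _
  have hvoid := void_of_cell Q y Δ (m * J + 1) Om δ e he0.le hcell
  have hsimp := simple_of_cell Q y Δ (m * J + 1) Om δ e hδ0.le he0.le hcell
  obtain ⟨q, hq⟩ : ∃ q, q = Real.exp (-δ) := ⟨_, rfl⟩
  have hq0 : 0 < q := by rw [hq]; exact Real.exp_pos _
  have hq1 : q ≤ 1 := by
    rw [hq]
    exact Real.exp_le_one_iff.2 (by linarith)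
  rw [← hq] at hvoid
  have hqJ : q ^ J ≤ Real.exp (-Λ) := by
    rw [hq, ← Real.exp_nat_mul]
    apply Real.exp_le_exp.2
    have : κ * J ≤ δ * J := mul_le_mul_of_nonneg_right hΔ1 hJ0
    linarith
  have hlaw : ∀ a : ℕ → ℕ, |((Om.filter (fun n => RJ (hit Q y Δ n) J m a 0)).card : ℝ) -
      Om.card * q ^ (∑ i ∈ range m, a i)| ≤ (ε / 32 + (2 * J + 1) ^ m * e) * Om.card := by
    intro a
    have h1 := RJ_law Om (hit Q y Δ) q hq0.le hq1 (m * J + 1) e he0.le hvoid J m a 0 ∅ ∅ (empty_subset _)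
      (empty_subset _) (disjoint_empty_left _) (by omega)
    have h2 : pat Om (hit Q y Δ) ∅ ∅ = Om := by
      unfold pat
      simp
    rw [h2, card_empty, pow_zero, pow_zero, pow_zero, one_mul, one_mul, mul_one, mul_one] at h1
    refine h1.trans (mul_le_mul_of_nonneg_right ?_ hOm)
    have h3 : m * q ^ J ≤ m * Real.exp (-Λ) := mul_le_mul_of_nonneg_left hqJ hm0
    linarith
  -- the bad elements
  have hbad : ((Om.filter (fun n => ¬ Simple Q y Δ (m * J + 1) n)).card : ℝ) ≤ ((m * J + 1 : ℕ) * e + ε / 8) * Om.card := by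
    refine hsimp.trans ?_
    rw [← mul_assoc]
    apply mul_le_mul_of_nonneg_right _ hOm
    have h1 : δ ^ 2 ≤ (2 * κ) ^ 2 := pow_le_pow_left₀ hδ0.le hΔ2 2
    have h2 : ((m * J + 1 : ℕ) : ℝ) * δ ^ 2 ≤ ε / 8 := by
      calc ((m * J + 1 : ℕ) : ℝ) * δ ^ 2 ≤ ((m * J + 1 : ℕ) : ℝ) * (2 * κ) ^ 2 :=
            mul_le_mul_of_nonneg_left h1 (Nat.cast_nonneg _)
        _ = 4 * κ * (m * (κ * J) + κ) := by push_cast; ring
        _ ≤ 4 * κ * (m * (Λ + κ) + κ) := by gcongr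
        _ ≤ 4 * κ * (m * (Λ + 1) + 1) := by
          have : κ ≤ 1 := by linarith
          gcongr
        _ ≤ κ * D / 8 := by
          rw [hD]
          nlinarith [mul_nonneg hκ0.le hm0]
        _ ≤ ε / 8 := by linarith
    linarith
  have hinit : ∀ n, (∀ c ∈ Ioc n (n + 0 * Δ), ¬ Sf Q y c) := by
    intro n c hc
    rw [mem_Ioc] at hc
    omega
  obtain ⟨S, hS⟩ : ∃ S : ℝ, S = (∑ i ∈ range m, (t i : ℝ)) * V := ⟨_, rfl⟩
  rw [← hS]
  obtain ⟨E, hE⟩ : ∃ E : ℝ, E = Real.exp (-S) := ⟨_, rfl⟩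
  rw [← hE]
  have hS0 : 0 ≤ S := by
    rw [hS]
    exact mul_nonneg (sum_nonneg fun i _ => Nat.cast_nonneg _) hV.le
  have hE0 : 0 < E := by rw [hE]; exact Real.exp_pos _
  have hE1 : E ≤ 1 := by
    rw [hE]
    exact Real.exp_le_one_iff.2 (by linarith)
  have hmδ : m * δ ≤ 1 / 2 := by nlinarith [mul_le_mul_of_nonneg_left hΔ2 hm0]
  -- the exponents
  have hlow : E - 4 * (m * δ) ≤ q ^ (∑ i ∈ range m, (t i / Δ + 1)) := by
    have h1 : ((∑ i ∈ range m, (t i / Δ + 1) : ℕ) : ℝ) * δ ≤ S + m * δ := by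
      rw [hS, hδ]
      push_cast
      rw [sum_add_distrib, sum_const, card_range, nsmul_eq_mul, mul_one, add_mul, ← mul_assoc]
      apply add_le_add_left
      rw [sum_mul]
      apply mul_le_mul_of_nonneg_right _ hV.le
      apply sum_le_sum
      intro i _
      have := Nat.div_mul_le_self (t i) Δ
      exact_mod_cast this
    have h2 : E * Real.exp (-(m * δ)) ≤ q ^ (∑ i ∈ range m, (t i / Δ + 1)) := by
      rw [hq, hE, ← Real.exp_nat_mul, ← Real.exp_add]
      apply Real.exp_le_exp.2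
      linarith
    have h3 := Real.add_one_le_exp (-(m * δ))
    have h4 : E * (-(m * δ) + 1) ≤ E * Real.exp (-(m * δ)) := mul_le_mul_of_nonneg_left h3 hE0.le
    have h5 : 0 ≤ m * δ := by positivity
    nlinarith
  have hupp : q ^ (∑ i ∈ range m, (t i / Δ - 1)) ≤ E + 4 * (m * δ) := by
    have h1 : S - 2 * (m * δ) ≤ ((∑ i ∈ range m, (t i / Δ - 1) : ℕ) : ℝ) * δ := by
      rw [hS, hδ]
      push_cast
      have h2 : ∀ i ∈ range m, (t i : ℝ) - 2 * Δ ≤ ((t i / Δ - 1 : ℕ) : ℝ) * Δ := by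
        intro i _
        have h3 : t i < (t i / Δ + 1) * Δ := by
          rw [add_mul, one_mul]
          exact Nat.lt_div_mul_add (by omega)
        obtain ⟨a0, ha0⟩ : ∃ a0, a0 = t i / Δ := ⟨_, rfl⟩
        rw [← ha0] at h3 ⊢
        have h4 : (a0 + 1) * Δ ≤ (a0 - 1 + 2) * Δ := Nat.mul_le_mul_right _ (by omega)
        have h5 : (t i : ℝ) ≤ (a0 - 1 : ℕ) * Δ + 2 * Δ := by
          have h6 : t i ≤ (a0 - 1) * Δ + 2 * Δ := by
            have h7 : (a0 - 1 + 2) * Δ = (a0 - 1) * Δ + 2 * Δ := by ring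
            omega
          exact_mod_cast h6
        linarith
      have h4 := sum_le_sum h2
      rw [sum_sub_distrib, sum_const, card_range, nsmul_eq_mul, ← sum_mul] at h4
      have h5 := mul_le_mul_of_nonneg_right h4 hV.le
      calc _ = (∑ i ∈ range m, (t i : ℝ) - m * (2 * Δ)) * V := by ring
        _ ≤ _ := h5
        _ = _ := by ring
    have h2 : q ^ (∑ i ∈ range m, (t i / Δ - 1)) ≤ E * Real.exp (2 * (m * δ)) := by
      rw [hq, hE, ← Real.exp_nat_mul, ← Real.exp_add]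
      apply Real.exp_le_exp.2
      linarith
    have h3 := Real.abs_exp_sub_one_le (x := 2 * (m * δ)) (by
      rw [abs_of_nonneg (by positivity)]
      linarith)
    rw [abs_of_nonneg (by positivity : (0 : ℝ) ≤ 2 * (m * δ))] at h3
    have h4 : E * Real.exp (2 * (m * δ)) ≤ E * (1 + 4 * (m * δ)) := by
      apply mul_le_mul_of_nonneg_left _ hE0.le
      linarith [(abs_le.1 h3).2]
    have h5 : 0 ≤ m * δ := by positivity
    nlinarith
  have hmκ : 4 * (m * δ) ≤ ε / 4 := by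
    calc 4 * (m * δ) ≤ 4 * (m * (2 * κ)) := by gcongr
      _ = κ * (8 * m) := by ring
      _ ≤ κ * (D / 4) := by
        apply mul_le_mul_of_nonneg_left _ hκ0.le
        rw [hD]
        nlinarith [mul_nonneg hm0 hΛ0]
      _ ≤ ε / 4 := by linarith
  have hpow : (2 * (J : ℝ) + 1) ^ m * e ≤ ε / 16 := by
    have h1 : 0 ≤ ((m * J + 1 : ℕ) : ℝ) * e := by positivity
    nlinarith
  have hpow2 : ((m * J + 1 : ℕ) : ℝ) * e + 2 * ((2 * (J : ℝ) + 1) ^ m * e) = ε / 8 := by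
    rw [← hee]
    ring
  have hp0 : 0 ≤ (2 * (J : ℝ) + 1) ^ m * e := by positivity
  -- lower bound
  have hL : (Om.filter (fun n => RJ (hit Q y Δ n) J m (fun i => t i / Δ + 1) 0)).card ≤
      (Om.filter (fun n => Gap (Sf Q y) m t n)).card +
        (Om.filter (fun n => ¬ Simple Q y Δ (m * J + 1) n)).card := by
    refine le_trans (card_le_card ?_) (card_union_le _ _)
    intro n hn
    rw [mem_filter] at hn
    rw [mem_union, mem_filter, mem_filter]
    by_cases hs : Simple Q y Δ (m * J + 1) n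
    · left
      exact ⟨hn.1, RJ_Gap Q y Δ (m * J + 1) n J hΔpos hs m t 0 n (by omega) (by omega) (by omega) (hinit n) hn.2⟩
    · right
      exact ⟨hn.1, hs⟩
  have hU : (Om.filter (fun n => Gap (Sf Q y) m t n)).card ≤
      (Om.filter (fun n => RJ (hit Q y Δ n) J m (fun i => t i / Δ - 1) 0)).card +
        ((Om.filter (fun n => ¬ Simple Q y Δ (m * J + 1) n)).card +
          (Om.filter (fun n => ¬ RJ (hit Q y Δ n) J m (fun _ => 0) 0)).card) := by
    refine le_trans (card_le_card ?_) ((card_union_le _ _).trans (Nat.add_le_add_left (card_union_le _ _) _))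
    intro n hn
    rw [mem_filter] at hn
    rw [mem_union, mem_union, mem_filter, mem_filter, mem_filter]
    by_cases hs : Simple Q y Δ (m * J + 1) n
    · by_cases hr : RJ (hit Q y Δ n) J m (fun _ => 0) 0
      · left
        exact ⟨hn.1, Gap_RJ Q y Δ (m * J + 1) n J hΔpos hs m t 0 n (by omega) (by omega) (by omega) (hinit n)
          hr hn.2⟩
      · right; right
        exact ⟨hn.1, hr⟩
    · right; left
      exact ⟨hn.1, hs⟩
  have hL' : ((Om.filter (fun n => RJ (hit Q y Δ n) J m (fun i => t i / Δ + 1) 0)).card : ℝ) ≤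
      ((Om.filter (fun n => Gap (Sf Q y) m t n)).card : ℝ) +
        (Om.filter (fun n => ¬ Simple Q y Δ (m * J + 1) n)).card := by exact_mod_cast hL
  have hU' : ((Om.filter (fun n => Gap (Sf Q y) m t n)).card : ℝ) ≤
      ((Om.filter (fun n => RJ (hit Q y Δ n) J m (fun i => t i / Δ - 1) 0)).card : ℝ) +
        (((Om.filter (fun n => ¬ Simple Q y Δ (m * J + 1) n)).card : ℝ) +
          (Om.filter (fun n => ¬ RJ (hit Q y Δ n) J m (fun _ => 0) 0)).card) := by exact_mod_cast hU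
  have hz := hlaw (fun _ => 0)
  simp only [sum_const_zero, pow_zero, mul_one] at hz
  have hz2 : ((Om.filter (fun n => RJ (hit Q y Δ n) J m (fun _ => 0) 0)).card : ℝ) +
      (Om.filter (fun n => ¬ RJ (hit Q y Δ n) J m (fun _ => 0) 0)).card = Om.card := by
    exact_mod_cast card_filter_add_card_filter_not (s := Om) (fun n => RJ (hit Q y Δ n) J m (fun _ => 0) 0)
  have h1 := (abs_le.1 (hlaw (fun i => t i / Δ + 1))).1
  have h2 := (abs_le.1 (hlaw (fun i => t i / Δ - 1))).2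
  have h3 := (abs_le.1 hz).1
  have h4 : Om.card * (E - 4 * (m * δ)) ≤ Om.card * q ^ (∑ i ∈ range m, (t i / Δ + 1)) :=
    mul_le_mul_of_nonneg_left hlow hOm
  have h5 : Om.card * q ^ (∑ i ∈ range m, (t i / Δ - 1)) ≤ Om.card * (E + 4 * (m * δ)) :=
    mul_le_mul_of_nonneg_left hupp hOm
  have h6 : Om.card * (4 * (m * δ)) ≤ Om.card * (ε / 4) := mul_le_mul_of_nonneg_left hmκ hOm
  have h7 : ((m * J + 1 : ℕ) * e + 2 * ((2 * (J : ℝ) + 1) ^ m * e)) * Om.card = ε / 8 * Om.card := by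
    rw [hpow2]
  have h8 : 0 ≤ (2 * (J : ℝ) + 1) ^ m * e * Om.card := by positivity
  have h9 : 0 ≤ ε * Om.card := by positivity
  rw [abs_le]
  constructor
  · have : -(ε * Om.card) ≤ -(Om.card * (ε / 4)) - (ε / 32 + (2 * J + 1) ^ m * e) * Om.card -
        ((m * J + 1 : ℕ) * e + ε / 8) * Om.card := by
      nlinarith
    linarith
  · have : Om.card * (ε / 4) + 2 * ((ε / 32 + (2 * J + 1) ^ m * e) * Om.card) +
        ((m * J + 1 : ℕ) * e + ε / 8) * Om.card ≤ ε * Om.card := by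
      nlinarith
    linarith

end Pool.Agent.Q236.EV
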