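import Pool.Agent.Q236.EV.Gaps3
import Pool.Agent.Q236.EV.Sizes

set_option autoImplicit false

/-!
# The joint law of consecutive gaps, for systems of polynomials
-/

namespace Pool.Agent.Q236.EV

open Polynomial Finset Filter
open Pool.Agent.W123.RP Pool.Agent.H373R2.T7 Pool.Agent.W123.RU Pool.Agent.W123.RU.Poly
open Pool.Agent.TH464.PW Pool.Agent.TH464.PO Pool.Agent.Y879.AP Pool.Agent.Y879.GL Pool.Agent.Q236.GW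
open Pool.Agent.Q236.CP

lemma QH_zero (Q : ℕ → ℕ → Prop) : QH Q {0} = Q := by
  funext p m
  unfold QH
  simp

open Classical in
/-- **The joint law of `m` consecutive gaps**, uniform in the sieve. -/
theorem gaps_gen (c : ℕ) (hc : 1 ≤ c) (m : ℕ) (ε : ℝ) (hε : 0 < ε) :
    ∃ κ : ℝ, 0 < κ ∧ κ ≤ 1 / 4 ∧ ∃ (K0 y0 T0 R0 : ℕ) (η' x1 : ℝ),
      0 < η' ∧ 0 < x1 ∧ ∀ (Q : ℕ → ℕ → Prop) (Z Y y : ℕ), PerB Q c → (∀ p : ℕ, p.Prime → nuB Q p < p) →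
      y0 ≤ y → y ^ K0 ≤ Y → Vq Q y ≤ κ →
      (∀ T : ℕ, κ ≤ T * Vq Q y → T * Vq Q y ≤ x1 → T0 ≤ T ∧ T ^ R0 ≤ Y ∧ ∀ t ∈ Icc 1 T,
        ((((pz y).filter (fun p : ℕ => T < p ∧ CoG Q p t)).card : ℕ) : ℝ) ≤ η' * T) →
      ∀ t : ℕ → ℕ, |(((Ioc Z (Z + Y)).filter (fun n => Sf Q y n ∧ Gap (Sf Q y) m t n)).card : ℝ) -
        Y * Vq Q y * Real.exp (-((∑ i ∈ range m, (t i : ℝ)) * Vq Q y))| ≤ ε * (Y * Vq Q y) := by
  obtain ⟨ε1, hε1⟩ : ∃ ε1 : ℝ, ε1 = min 1 (ε / 3) := ⟨_, rfl⟩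
  have hε10 : 0 < ε1 := by rw [hε1]; positivity
  have hε11 : ε1 ≤ 1 := by rw [hε1]; exact min_le_left _ _
  have hε13 : ε1 ≤ ε / 3 := by rw [hε1]; exact min_le_right _ _
  obtain ⟨κ, hκ, hκ4, N', e, hN', he, hone⟩ := gaps_one m ε1 hε10
  obtain ⟨K0, y0, T0, R0, η', hη', hcell⟩ := cell_law c hc N' hN' (2 * κ) (min e ε1) (by positivity)
    (by positivity)
  have hN'r : (1 : ℝ) ≤ N' := by exact_mod_cast hN'
  refine ⟨κ, hκ, hκ4, K0, y0, T0, R0, η', N' * (2 * κ), hη', by positivity, ?_⟩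
  intro Q Z Y y hQ hadm hy hyY hVκ hT t
  have hV0 : 0 < Vq Q y := Vq_pos Q hadm y
  obtain ⟨Δ, h1, h2, _⟩ := exists_window (Vq Q y) κ hV0 hVκ
  have h3 : κ ≤ (N' * Δ : ℕ) * Vq Q y := by
    push_cast
    calc κ ≤ 1 * (Δ * Vq Q y) := by linarith
      _ ≤ N' * (Δ * Vq Q y) := mul_le_mul_of_nonneg_right hN'r (by positivity)
      _ = _ := by ring
  have h4 : (N' * Δ : ℕ) * Vq Q y ≤ N' * (2 * κ) := by
    push_cast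
    calc (N' : ℝ) * Δ * Vq Q y = N' * (Δ * Vq Q y) := by ring
      _ ≤ _ := mul_le_mul_of_nonneg_left h2 (by positivity)
  obtain ⟨h5, h6, h7⟩ := hT (N' * Δ) h3 h4
  obtain ⟨h8, h9⟩ := hcell Q Z Y y Δ hQ hadm hy hyY h5 h6 h7 h2 {0} subset_rfl
  rw [QH_zero] at h8
  have h10 := hone Q y Δ (OmZ Q y {0} Z Y) (Vq Q y) hV0 h1 h2 (fun U hU hne A => (h9 U hU hne A).trans
    (mul_le_mul_of_nonneg_right (min_le_left _ _) (Nat.cast_nonneg _))) t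
  have e1 : (OmZ Q y {0} Z Y).filter (fun n => Gap (Sf Q y) m t n) =
      (Ioc Z (Z + Y)).filter (fun n => Sf Q y n ∧ Gap (Sf Q y) m t n) := by
    unfold OmZ
    rw [filter_filter]
    apply filter_congr
    intro n _
    simp
  rw [e1] at h10
  obtain ⟨M, hM⟩ : ∃ M : ℝ, M = Y * Vq Q y := ⟨_, rfl⟩
  have hM0 : 0 ≤ M := by rw [hM]; positivity
  rw [← hM] at h8 ⊢
  obtain ⟨E, hE⟩ : ∃ E : ℝ, E = Real.exp (-((∑ i ∈ range m, (t i : ℝ)) * Vq Q y)) := ⟨_, rfl⟩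
  rw [← hE] at h10 ⊢
  have hE0 : 0 ≤ E := by rw [hE]; exact (Real.exp_pos _).le
  have hE1 : E ≤ 1 := by
    rw [hE]
    apply Real.exp_le_one_iff.2
    have : 0 ≤ (∑ i ∈ range m, (t i : ℝ)) * Vq Q y :=
      mul_nonneg (sum_nonneg fun i _ => Nat.cast_nonneg _) hV0.le
    linarith
  have h11 : |((OmZ Q y {0} Z Y).card : ℝ) - M| ≤ ε1 * M :=
    h8.trans (mul_le_mul_of_nonneg_right (min_le_right _ _) hM0)
  have h12 : ((OmZ Q y {0} Z Y).card : ℝ) ≤ 2 * M := by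
    have := (abs_le.1 h11).2
    nlinarith
  have h13 : |((OmZ Q y {0} Z Y).card : ℝ) * E - M * E| ≤ ε1 * M := by
    rw [← sub_mul, abs_mul, abs_of_nonneg hE0]
    calc |((OmZ Q y {0} Z Y).card : ℝ) - M| * E ≤ (ε1 * M) * 1 := by
          apply mul_le_mul h11 hE1 hE0 (by positivity)
      _ = _ := mul_one _
  have h14 := abs_sub_le (((Ioc Z (Z + Y)).filter (fun n => Sf Q y n ∧ Gap (Sf Q y) m t n)).card : ℝ)
    (((OmZ Q y {0} Z Y).card : ℝ) * E) (M * E)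
  have h15 : ε1 * ((OmZ Q y {0} Z Y).card : ℝ) ≤ ε1 * (2 * M) := mul_le_mul_of_nonneg_left h12 hε10.le
  have h16 : ε1 * M ≤ ε / 3 * M := mul_le_mul_of_nonneg_right hε13 hM0
  linarith

open Classical in
/-- **The joint law of `m` consecutive gaps**, for systems of polynomials, uniformly. -/
theorem gaps_sys (k D : ℕ) (E η θ : ℝ) (hE : 0 < E) (hη : 0 < η) (hθ : 0 < θ) (m : ℕ) (ε : ℝ) (hε : 0 < ε) :
    ∃ r0 : ℕ, 2 ≤ r0 ∧ ∀ r : ℕ, r0 ≤ r → ∀ Cv : ℝ, 0 < Cv →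
      ∀ᶠ X : ℕ in atTop, ∀ f : Fin k → ℤ[X], US k D ((X : ℝ) ^ E) ((X : ℝ) ^ η) f →
      Vq (Q f) X ≤ Cv / Real.log X → ∀ Z Y : ℕ, (X : ℝ) ^ θ ≤ Y → ∀ t : ℕ → ℕ,
        |(((Ioc Z (Z + Y)).filter (fun n => Sf (Q f) ⌊(X : ℝ) ^ (1 / (r : ℝ))⌋₊ n ∧
            Gap (Sf (Q f) ⌊(X : ℝ) ^ (1 / (r : ℝ))⌋₊) m t n)).card : ℝ) -
          Y * Vq (Q f) ⌊(X : ℝ) ^ (1 / (r : ℝ))⌋₊ *
            Real.exp (-((∑ i ∈ range m, (t i : ℝ)) * Vq (Q f) ⌊(X : ℝ) ^ (1 / (r : ℝ))⌋₊))| ≤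
          ε * (Y * Vq (Q f) ⌊(X : ℝ) ^ (1 / (r : ℝ))⌋₊) := by
  obtain ⟨κ, hκ, _, K0, y0, T0, R0, η', x1, hη', hx1, hgen⟩ := gaps_gen (k * D + 1) (by omega) m ε hε
  obtain ⟨r0, hr0, hsz⟩ := us_sizes k D E η θ hE hη hθ K0 y0 T0 R0 η' κ x1 hη' hκ hx1
  refine ⟨r0, hr0, ?_⟩
  intro r hr Cv hCv
  filter_upwards [hsz r hr Cv hCv] with X hX
  intro f hf hVX Z Y hY t
  obtain ⟨a1, a2, a3, a4⟩ := hX f hf hVX Y hY
  exact hgen (Q f) Z Y _ (us_perB hf) (us_adm hf) a1 a2 a3 a4 t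

end Pool.Agent.Q236.EV
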