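import Pool.Agent.Q236.EV.Void

set_option autoImplicit false

/-!
# The Poisson law for the number of large gaps
-/

namespace Pool.Agent.Q236.EV

open Finset Filter Pool.Agent.H373R2.T7 Pool.Agent.W123.RP Pool.Agent.W123.RU Pool.Agent.TH464.PO
open Pool.Agent.Q236.CP

open Classical in
/-- the number of the sifted `g` in `(n, n + T]` such that `(g, g + L]` contains no sifted element -/
noncomputable def NL (Q : ℕ → ℕ → Prop) (y T L n : ℕ) : ℕ :=
  ((Ioc n (n + T)).filter (fun g => Sf Q y g ∧ ∀ g' ∈ Ioc g (g + L), ¬ Sf Q y g')).card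

lemma cell_iff (Δ n g i : ℕ) (hΔ : 1 ≤ Δ) (hg : n < g) :
    (g - n - 1) / Δ = i ↔ g - n ∈ Ioc (i * Δ) ((i + 1) * Δ) := by
  rw [mem_Ioc]
  have h1 : (i + 1) * Δ = i * Δ + Δ := by ring
  constructor
  · intro h
    have h2 := Nat.div_add_mod (g - n - 1) Δ
    have h3 := Nat.mod_lt (g - n - 1) (show Δ > 0 by omega)
    rw [h, mul_comm Δ i] at h2
    omega
  · rintro ⟨h2, h3⟩
    rw [Nat.div_eq_iff (by omega)]
    have e := mul_comm Δ i
    constructor <;> omega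

lemma W_le_NL (Q : ℕ → ℕ → Prop) (y Δ T L N m n : ℕ) (hΔ : 1 ≤ Δ) (hN : N * Δ ≤ T) (hL : L ≤ m * Δ) :
    W (hit Q y Δ) m N n ≤ NL Q y T L n := by
  classical
  unfold W NL
  apply card_le_card_of_surjOn (fun g => (g - n - 1) / Δ)
  intro i hi
  rw [mem_coe, mem_filter, mem_range] at hi
  obtain ⟨hiN, ⟨b, hb, hs⟩, hv⟩ := hi
  obtain ⟨S, hS⟩ : ∃ S, S = (Ioc (i * Δ) ((i + 1) * Δ)).filter (fun b => Sf Q y (n + b)) := ⟨_, rfl⟩
  have hne : S.Nonempty := ⟨b, by rw [hS, mem_filter]; exact ⟨hb, hs⟩⟩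
  obtain ⟨b0, hb0, hmax⟩ := S.exists_max_image id hne
  simp only [id] at hmax
  have hb0' := hb0
  rw [hS, mem_filter, mem_Ioc] at hb0'
  obtain ⟨⟨h1, h2⟩, h3⟩ := hb0'
  have h4 : (i + 1) * Δ ≤ N * Δ := Nat.mul_le_mul_right _ hiN
  have h5 : (i + 1) * Δ = i * Δ + Δ := by ring
  refine ⟨n + b0, ?_, ?_⟩
  · rw [mem_coe, mem_filter, mem_Ioc]
    refine ⟨⟨by omega, by omega⟩, h3, ?_⟩
    intro g' hg' hs'
    rw [mem_Ioc] at hg'
    by_cases h6 : g' - n ≤ (i + 1) * Δ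
    · have h7 : g' - n ∈ S := by
        rw [hS, mem_filter, mem_Ioc, show n + (g' - n) = g' by omega]
        exact ⟨⟨by omega, h6⟩, hs'⟩
      have := hmax _ h7
      omega
    · have h8 := (cell_iff Δ n g' ((g' - n - 1) / Δ) hΔ (by omega)).1 rfl
      obtain ⟨j, hj⟩ : ∃ j, j = (g' - n - 1) / Δ := ⟨_, rfl⟩
      rw [← hj, mem_Ioc] at h8
      refine hv j ?_ ⟨g' - n, mem_Ioc.2 h8, by rwa [show n + (g' - n) = g' by omega]⟩
      rw [mem_Ioc]
      constructor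
      · by_contra hcon
        have : (j + 1) * Δ ≤ (i + 1) * Δ := Nat.mul_le_mul_right _ (by omega)
        omega
      · by_contra hcon
        have h9 : (i + m + 1) * Δ ≤ j * Δ := Nat.mul_le_mul_right _ (by omega)
        have h10 : (i + m + 1) * Δ = i * Δ + Δ + m * Δ := by ring
        omega
  · simp only
    rw [cell_iff Δ n _ i hΔ (by omega), mem_Ioc]
    omega

lemma NL_le (Q : ℕ → ℕ → Prop) (y Δ T L N m n : ℕ) (hΔ : 1 ≤ Δ) (hT : T < (N + 1) * Δ)
    (hL : (m + 1) * Δ ≤ L) :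
    (NL Q y T L n : ℕ) ≤ W (hit Q y Δ) m N n + (pat {n} (hit Q y Δ) {N} ∅).card := by
  classical
  obtain ⟨S1, hS1⟩ : ∃ S1, S1 = (Ioc n (n + T)).filter
    (fun g => Sf Q y g ∧ ∀ g' ∈ Ioc g (g + L), ¬ Sf Q y g') := ⟨_, rfl⟩
  obtain ⟨S2, hS2⟩ : ∃ S2, S2 = (range N).filter (fun i => occ (hit Q y Δ) m n i) := ⟨_, rfl⟩
  have hmem : ∀ g ∈ S1, ((g - n - 1) / Δ < N ∧ (g - n - 1) / Δ ∈ S2) ∨
      ((g - n - 1) / Δ = N ∧ hit Q y Δ n N) := by
    intro g hg
    rw [hS1, mem_filter, mem_Ioc] at hg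
    obtain ⟨⟨h1, h2⟩, h3, h4⟩ := hg
    obtain ⟨i, hi⟩ : ∃ i, i = (g - n - 1) / Δ := ⟨_, rfl⟩
    have h5 := (cell_iff Δ n g i hΔ h1).1 hi.symm
    rw [← hi]
    have hhit : hit Q y Δ n i := ⟨g - n, h5, by rwa [show n + (g - n) = g by omega]⟩
    rw [mem_Ioc] at h5
    have h6 : (i + 1) * Δ = i * Δ + Δ := by ring
    have h7 : (N + 1) * Δ = N * Δ + Δ := by ring
    have hiN : i ≤ N := by
      by_contra hcon
      have : (N + 1) * Δ ≤ i * Δ := Nat.mul_le_mul_right _ (by omega)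
      omega
    rcases eq_or_lt_of_le hiN with h | h
    · right
      rw [h] at hhit
      exact ⟨h, hhit⟩
    · left
      refine ⟨h, ?_⟩
      rw [hS2, mem_filter]
      refine ⟨mem_range.2 h, hhit, ?_⟩
      rintro j hj ⟨b, hb, hs⟩
      rw [mem_Ioc] at hj hb
      have h8 : (i + 1) * Δ ≤ j * Δ := Nat.mul_le_mul_right _ (by omega)
      have h9 : (j + 1) * Δ ≤ (i + m + 1) * Δ := Nat.mul_le_mul_right _ (by omega)
      have h10 : (i + m + 1) * Δ = i * Δ + (m + 1) * Δ := by ring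
      exact h4 (n + b) (mem_Ioc.2 ⟨by omega, by omega⟩) hs
  have hinj : Set.InjOn (fun g => (g - n - 1) / Δ) (S1 : Set ℕ) := by
    have key : ∀ a ∈ S1, ∀ b ∈ S1, a < b → (a - n - 1) / Δ ≠ (b - n - 1) / Δ := by
      intro a ha b hb hab heq
      rw [hS1, mem_filter, mem_Ioc] at ha hb
      have h1 := (cell_iff Δ n a _ hΔ ha.1.1).1 rfl
      have h2 := (cell_iff Δ n b _ hΔ hb.1.1).1 rfl
      rw [← heq, mem_Ioc] at h2
      rw [mem_Ioc] at h1
      have h3 : ((a - n - 1) / Δ + 1) * Δ = (a - n - 1) / Δ * Δ + Δ := by ring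
      have h4 : Δ ≤ (m + 1) * Δ := Nat.le_mul_of_pos_left _ (by omega)
      exact ha.2.2 b (mem_Ioc.2 ⟨hab, by omega⟩) hb.2.1
    intro a ha b hb hab
    rcases lt_trichotomy a b with h | h | h
    · exact absurd hab (key a ha b hb h)
    · exact h
    · exact absurd hab.symm (key b hb a ha h)
  unfold NL W
  rw [← hS1, ← hS2]
  by_cases hh : hit Q y Δ n N
  · have h1 : (pat {n} (hit Q y Δ) {N} ∅).card = 1 := by
      unfold pat
      rw [card_eq_one]
      refine ⟨n, ?_⟩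
      ext x
      simp only [mem_filter, mem_singleton, forall_eq, notMem_empty, IsEmpty.forall_iff, implies_true,
        and_true]
      constructor
      · rintro ⟨h, _⟩
        exact h
      · rintro rfl
        exact ⟨rfl, hh⟩
    rw [h1]
    have h2 : S1.card ≤ (insert N S2).card := by
      apply card_le_card_of_injOn _ _ hinj
      intro g hg
      rcases hmem g hg with h | h
      · exact mem_insert_of_mem h.2
      · simp only
        rw [h.1]
        exact mem_insert_self N S2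
    exact h2.trans (card_insert_le N S2)
  · have h2 : S1.card ≤ S2.card := by
      apply card_le_card_of_injOn _ _ hinj
      intro g hg
      rcases hmem g hg with h | h
      · exact h.2
      · exact absurd h.2 hh
    omega

/-- the numerical estimates -/
lemma numbers (δ τ a C : ℝ) (N l : ℕ) (hδ : 0 < δ) (hδ1 : δ ≤ 1 / 2) (h1 : N * δ ≤ τ)
    (h2 : τ ≤ (N + 1) * δ) (h3 : l * δ ≤ a) (h4 : a ≤ (l + 1) * δ) (hτ : 1 ≤ τ)
    (hC : τ * Real.exp (-a) ≤ C) :
    N * ((1 - Real.exp (-δ)) * Real.exp (-δ) ^ (l + 1)) ≤ τ * Real.exp (-a) ∧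
    τ * Real.exp (-a) - N * ((1 - Real.exp (-δ)) * Real.exp (-δ) ^ (l + 1)) ≤ 3 * δ * C ∧
    N * ((1 - Real.exp (-δ)) * Real.exp (-δ) ^ (l - 1)) ≤ τ * Real.exp (-a) + 4 * δ * C ∧
    (1 - Real.exp (-δ)) * Real.exp (-δ) ^ (l - 1) ≤ 3 * δ * Real.exp (-a) := by
  obtain ⟨E, hE⟩ : ∃ E, E = Real.exp (-a) := ⟨_, rfl⟩
  have hE0 : 0 < E := by rw [hE]; exact Real.exp_pos _
  rw [← hE] at hC ⊢
  obtain ⟨q, hq⟩ : ∃ q, q = Real.exp (-δ) := ⟨_, rfl⟩
  have hq0 : 0 < q := by rw [hq]; exact Real.exp_pos _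
  have hqlow : 1 - δ ≤ q := by
    rw [hq]
    have := Real.add_one_le_exp (-δ)
    linarith
  have hqup : q ≤ 1 - δ * (1 - δ) := by
    have h5 := Real.add_one_le_exp δ
    have h6 : q * Real.exp δ = 1 := by
      rw [hq, ← Real.exp_add]
      simp
    have h7 : q * (1 + δ) ≤ 1 := by
      calc q * (1 + δ) ≤ q * Real.exp δ := mul_le_mul_of_nonneg_left (by linarith) hq0.le
        _ = 1 := h6
    nlinarith
  have hN0 : (0 : ℝ) ≤ N := Nat.cast_nonneg N
  have hl0 : (0 : ℝ) ≤ l := Nat.cast_nonneg l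
  have hq1 : 0 ≤ 1 - q := by nlinarith
  have hpow1 : q ^ (l + 1) ≤ E := by
    rw [hq, hE, ← Real.exp_nat_mul]
    apply Real.exp_le_exp.2
    push_cast
    linarith
  have hpow2 : E * (1 - δ) ≤ q ^ (l + 1) := by
    have h5 : E * Real.exp (-δ) ≤ q ^ (l + 1) := by
      rw [hq, hE, ← Real.exp_nat_mul, ← Real.exp_add]
      apply Real.exp_le_exp.2
      push_cast
      linarith
    refine le_trans ?_ h5
    apply mul_le_mul_of_nonneg_left _ hE0.le
    rw [← hq]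
    exact hqlow
  have hpow3 : q ^ (l - 1) ≤ E * Real.exp (2 * δ) := by
    rw [hq, hE, ← Real.exp_nat_mul, ← Real.exp_add]
    apply Real.exp_le_exp.2
    have h5 : (l : ℝ) - 1 ≤ ((l - 1 : ℕ) : ℝ) := by
      have : l ≤ (l - 1) + 1 := by omega
      have : (l : ℝ) ≤ ((l - 1 : ℕ) : ℝ) + 1 := by exact_mod_cast this
      linarith
    nlinarith
  have hexp : Real.exp (2 * δ) ≤ 1 + 4 * δ := by
    have h5 := Real.abs_exp_sub_one_le (x := 2 * δ) (by rw [abs_of_nonneg (by linarith)]; linarith)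
    rw [abs_of_nonneg (by linarith : (0 : ℝ) ≤ 2 * δ)] at h5
    have := (abs_le.1 h5).2
    linarith
  have hpow4 : q ^ (l - 1) ≤ E * (1 + 4 * δ) := hpow3.trans (mul_le_mul_of_nonneg_left hexp hE0.le)
  rw [← hq]
  have hN1 : N * (1 - q) ≤ τ := by
    calc N * (1 - q) ≤ N * δ := mul_le_mul_of_nonneg_left (by linarith) hN0
      _ ≤ τ := h1
  have hτE : 0 ≤ τ * E := by positivity
  have hC0 : 0 ≤ C := hτE.trans hC
  have hNlow : τ * ((1 - δ) * (1 - δ)) ≤ N * (1 - q) := by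
    have h5 : τ * (1 - δ) ≤ N * δ := by nlinarith
    calc τ * ((1 - δ) * (1 - δ)) = (τ * (1 - δ)) * (1 - δ) := by ring
      _ ≤ N * δ * (1 - δ) := mul_le_mul_of_nonneg_right h5 (by linarith)
      _ = N * (δ * (1 - δ)) := by ring
      _ ≤ N * (1 - q) := mul_le_mul_of_nonneg_left (by linarith) hN0
  refine ⟨?_, ?_, ?_, ?_⟩
  · calc N * ((1 - q) * q ^ (l + 1)) = N * (1 - q) * q ^ (l + 1) := by ring
      _ ≤ τ * E := mul_le_mul hN1 hpow1 (by positivity) (by linarith)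
  · have h5 : τ * ((1 - δ) * (1 - δ)) * (E * (1 - δ)) ≤ N * (1 - q) * q ^ (l + 1) := by
      have h6 : 0 ≤ 1 - δ := by linarith
      apply mul_le_mul hNlow hpow2 (by positivity) (by positivity)
    have h6 : (1 : ℝ) - 3 * δ ≤ (1 - δ) ^ 3 := by
      have := one_add_mul_le_pow (a := -δ) (by linarith) 3
      push_cast at this
      have e : (1 : ℝ) + -δ = 1 - δ := by ring
      rw [e] at this
      linarith
    have h7 : τ * E * (1 - 3 * δ) ≤ τ * E * (1 - δ) ^ 3 := mul_le_mul_of_nonneg_left h6 hτE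
    have h8 : τ * E * (3 * δ) ≤ C * (3 * δ) := mul_le_mul_of_nonneg_right hC (by linarith)
    have h9 : τ * ((1 - δ) * (1 - δ)) * (E * (1 - δ)) = τ * E * (1 - δ) ^ 3 := by ring
    have h10 : N * ((1 - q) * q ^ (l + 1)) = N * (1 - q) * q ^ (l + 1) := by ring
    rw [h10]
    linarith
  · have h5 : N * (1 - q) * q ^ (l - 1) ≤ τ * (E * (1 + 4 * δ)) :=
      mul_le_mul hN1 hpow4 (by positivity) (by linarith)
    have h8 : τ * E * (4 * δ) ≤ C * (4 * δ) := mul_le_mul_of_nonneg_right hC (by linarith)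
    have h10 : N * ((1 - q) * q ^ (l - 1)) = N * (1 - q) * q ^ (l - 1) := by ring
    rw [h10]
    linarith
  · calc (1 - q) * q ^ (l - 1) ≤ δ * (E * (1 + 4 * δ)) := by
          apply mul_le_mul (by linarith) hpow4 (by positivity) hδ.le
      _ ≤ δ * (E * 3) := by
          apply mul_le_mul_of_nonneg_left _ hδ.le
          apply mul_le_mul_of_nonneg_left _ hE0.le
          linarith
      _ = _ := by ring

/-- the number `(2 a + B) e ^ (-a)` is small -/
lemma small_tail (C s B M0 a τ : ℝ) (hC : 0 < C) (hs : 0 < s) (hB : 0 ≤ B) (ha : 0 ≤ a)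
    (hM : C * (8 * (4 + B) / s) ^ 2 ≤ M0) (hM0 : M0 ≤ τ) (hτ : τ * Real.exp (-a) ≤ C) :
    (2 * a + B) * (8 * Real.exp (-a)) ≤ s := by
  obtain ⟨h, hh⟩ : ∃ h, h = Real.exp (-(a / 2)) := ⟨_, rfl⟩
  have hh0 : 0 < h := by rw [hh]; exact Real.exp_pos _
  have hh2 : Real.exp (-a) = h ^ 2 := by
    rw [hh, ← Real.exp_nat_mul]
    congr 1
    push_cast
    ring
  obtain ⟨G, hG⟩ : ∃ G, G = 8 * (4 + B) / s := ⟨_, rfl⟩
  have hG0 : 0 < G := by rw [hG]; positivity
  rw [← hG] at hM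
  have h1 : C * G ^ 2 * h ^ 2 ≤ C * 1 := by
    calc C * G ^ 2 * h ^ 2 ≤ τ * h ^ 2 := mul_le_mul_of_nonneg_right (by linarith) (by positivity)
      _ ≤ C * 1 := by rw [← hh2, mul_one]; exact hτ
  have h2 : (G * h) ^ 2 ≤ 1 ^ 2 := by
    have h3 : C * (G * h) ^ 2 ≤ C * 1 := by
      calc C * (G * h) ^ 2 = C * G ^ 2 * h ^ 2 := by ring
        _ ≤ C * 1 := h1
    have := le_of_mul_le_mul_left h3 hC
    linarith
  have h3 : G * h ≤ 1 := by
    exact (pow_le_pow_iff_left₀ (by positivity) (by norm_num) (by norm_num)).1 h2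
  have h4 : 8 * (4 + B) * h ≤ s := by
    rw [hG, div_mul_eq_mul_div, div_le_one hs] at h3
    exact h3
  have h5 : a * h ≤ 2 := by
    have h6 := Real.add_one_le_exp (a / 2)
    have h7 : h * Real.exp (a / 2) = 1 := by
      rw [hh, ← Real.exp_add]
      simp
    have h8 : h * (a / 2 + 1) ≤ 1 := by
      calc h * (a / 2 + 1) ≤ h * Real.exp (a / 2) := mul_le_mul_of_nonneg_left h6 hh0.le
        _ = 1 := h7
    nlinarith
  have hh1 : h ≤ 1 := by
    rw [hh]
    apply Real.exp_le_one_iff.2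
    linarith
  rw [hh2]
  have h6 : B * h ≤ B * 1 := mul_le_mul_of_nonneg_left hh1 hB
  calc (2 * a + B) * (8 * h ^ 2) = 8 * (2 * (a * h) + B * h) * h := by ring
    _ ≤ 8 * (4 + B) * h := by
      apply mul_le_mul_of_nonneg_right _ hh0.le
      linarith
    _ ≤ s := h4

end Pool.Agent.Q236.EV
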