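import Pool.Agent.Q236.EV.Gen

set_option autoImplicit false

/-!
# The Poisson law for the number of large gaps, general sieves
-/

namespace Pool.Agent.Q236.EV

open Finset Filter Pool.Agent.H373R2.T7 Pool.Agent.W123.RP Pool.Agent.W123.RU Pool.Agent.TH464.PO
open Pool.Agent.Q236.CP

lemma sum_pat (Om : Finset ℕ) (hit : ℕ → ℕ → Prop) (N : ℕ) :
    ∑ n ∈ Om, ((pat {n} hit {N} ∅).card : ℝ) = (pat Om hit {N} ∅).card := by
  classical
  have h1 : ∀ n ∈ Om, ((pat {n} hit {N} ∅).card : ℝ) = if hit n N then 1 else 0 := by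
    intro n _
    unfold pat
    simp only [mem_singleton, forall_eq, notMem_empty, IsEmpty.forall_iff, implies_true, and_true]
    rw [filter_singleton]
    split_ifs <;> simp
  rw [sum_congr rfl h1, Finset.sum_ite, Finset.sum_const_zero, add_zero, Finset.sum_const, nsmul_eq_mul,
    mul_one]
  unfold pat
  simp

open Classical in
/-- **The Poisson law for the number of large gaps**, for one sieve. -/
theorem ev_one (C ε : ℝ) (hC : 0 < C) (hε : 0 < ε) :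
    ∃ M0 κ ζ : ℝ, 1 ≤ M0 ∧ 0 < κ ∧ κ ≤ 1 / 4 ∧ 0 < ζ ∧ ∀ M1 : ℝ, 0 ≤ M1 → ∃ (N' : ℕ) (e : ℝ), 1 ≤ N' ∧ 0 < e ∧
      ∀ (Q : ℕ → ℕ → Prop) (y Δ : ℕ) (Om : Finset ℕ) (V : ℝ), 0 < V → κ ≤ Δ * V → Δ * V ≤ 2 * κ →
        Void Om (hit Q y Δ) (Real.exp (-(Δ * V))) N' e →
        ∀ (T L : ℕ) (x : ℝ), M0 ≤ T * V → T * V ≤ M1 → L * V ≤ M1 → T * V * Real.exp (-(L * V)) ≤ C →
          0 ≤ x → x ≤ C → |x - T * V * Real.exp (-(L * V))| ≤ ζ → ∀ A : Finset ℕ,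
          |((Om.filter (fun n => NL Q y T L n ∈ A)).card : ℝ) - Om.card *
            ∑ j ∈ A, Real.exp (-x) * x ^ j / j.factorial| ≤ ε * Om.card := by
  obtain ⟨R, η, hη, hη1, hW⟩ := W_law C (ε / 2) hC.le (by positivity)
  obtain ⟨s, hs⟩ : ∃ s : ℝ, s = min (η / 2) (ε / 8) := ⟨_, rfl⟩
  have hs0 : 0 < s := by rw [hs]; positivity
  have hsη2 : s ≤ η / 2 := by rw [hs]; exact min_le_left _ _
  have hsη : s ≤ η := by linarith
  have hsε : s ≤ ε / 8 := by rw [hs]; exact min_le_right _ _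
  obtain ⟨B, hB⟩ : ∃ B : ℝ, B = 2 + (R + 1) ^ 2 := ⟨_, rfl⟩
  have hB0 : 0 ≤ B := by rw [hB]; positivity
  obtain ⟨M0, hM0⟩ : ∃ M0 : ℝ, M0 = max (C * (8 * (4 + B) / s) ^ 2) (max (3 * C) (R + 3)) := ⟨_, rfl⟩
  have hM01 : C * (8 * (4 + B) / s) ^ 2 ≤ M0 := by rw [hM0]; exact le_max_left _ _
  have hM02 : 3 * C ≤ M0 := by rw [hM0]; exact (le_max_left _ _).trans (le_max_right _ _)
  have hM03 : (R : ℝ) + 3 ≤ M0 := by rw [hM0]; exact (le_max_right _ _).trans (le_max_right _ _)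
  have hR0 : (0 : ℝ) ≤ R := Nat.cast_nonneg R
  obtain ⟨κ, hκ⟩ : ∃ κ : ℝ, κ = min (1 / 4) (s / (14 * C + 2)) := ⟨_, rfl⟩
  have hκ0 : 0 < κ := by rw [hκ]; positivity
  have hκ4 : κ ≤ 1 / 4 := by rw [hκ]; exact min_le_left _ _
  have hκs : κ * (14 * C + 2) ≤ s := by
    have : κ ≤ s / (14 * C + 2) := by rw [hκ]; exact min_le_right _ _
    rwa [le_div_iff₀ (by positivity)] at this
  refine ⟨M0, κ, η / 2, by linarith, hκ0, hκ4, by positivity, ?_⟩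
  intro M1 hM1
  obtain ⟨N', hN'⟩ : ∃ N' : ℕ, N' = 2 * ⌈M1 / κ⌉₊ + 3 := ⟨_, rfl⟩
  have hN'0 : (0 : ℝ) ≤ N' := Nat.cast_nonneg _
  obtain ⟨e, he⟩ : ∃ e : ℝ, e = s / ((2 * N') ^ (R + 1) + 4 * N' + 2) := ⟨_, rfl⟩
  have hden : (0 : ℝ) < (2 * (N' : ℝ)) ^ (R + 1) + 4 * N' + 2 := by positivity
  have he0 : 0 < e := by rw [he]; positivity
  have hes : e * ((2 * (N' : ℝ)) ^ (R + 1) + 4 * N' + 2) ≤ s := by
    rw [he, div_mul_cancel₀ _ hden.ne']
  refine ⟨N', e, by omega, he0, ?_⟩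
  intro Q y Δ Om V hV hΔ1 hΔ2 hvoid T L x hT0 hT1 hL1 hTC hx0 hxC hxx A
  obtain ⟨δ, hδ⟩ : ∃ δ : ℝ, δ = Δ * V := ⟨_, rfl⟩
  have hδ0 : 0 < δ := by rw [hδ]; linarith
  have hδ2 : δ ≤ 1 / 2 := by rw [hδ]; linarith
  have hΔpos : 1 ≤ Δ := by
    rcases Nat.eq_zero_or_pos Δ with h | h
    · rw [h, Nat.cast_zero, zero_mul] at hΔ1
      linarith
    · exact h
  obtain ⟨N, hN⟩ : ∃ N, N = T / Δ := ⟨_, rfl⟩
  obtain ⟨l, hl⟩ : ∃ l, l = L / Δ := ⟨_, rfl⟩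
  have hN1 : N * Δ ≤ T := by rw [hN]; exact Nat.div_mul_le_self T Δ
  have hN2 : T < (N + 1) * Δ := by
    rw [hN, add_mul, one_mul]
    exact Nat.lt_div_mul_add (by omega)
  have hl1 : l * Δ ≤ L := by rw [hl]; exact Nat.div_mul_le_self L Δ
  have hl2 : L < (l + 1) * Δ := by
    rw [hl, add_mul, one_mul]
    exact Nat.lt_div_mul_add (by omega)
  obtain ⟨τ, hτ⟩ : ∃ τ : ℝ, τ = T * V := ⟨_, rfl⟩
  obtain ⟨a, ha⟩ : ∃ a : ℝ, a = L * V := ⟨_, rfl⟩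
  rw [← hτ] at hT0 hT1 hTC hxx
  rw [← ha] at hL1 hTC hxx
  rw [← hδ] at hvoid hΔ1 hΔ2
  have hτ1 : 1 ≤ τ := by linarith
  have ha0 : 0 ≤ a := by rw [ha]; positivity
  have g1 : N * δ ≤ τ := by
    rw [hδ, hτ, ← mul_assoc]
    apply mul_le_mul_of_nonneg_right _ hV.le
    exact_mod_cast hN1
  have g2 : τ ≤ (N + 1) * δ := by
    rw [hδ, hτ, ← mul_assoc]
    apply mul_le_mul_of_nonneg_right _ hV.le
    exact_mod_cast hN2.le
  have g3 : l * δ ≤ a := by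
    rw [hδ, ha, ← mul_assoc]
    apply mul_le_mul_of_nonneg_right _ hV.le
    exact_mod_cast hl1
  have g4 : a ≤ (l + 1) * δ := by
    rw [hδ, ha, ← mul_assoc]
    apply mul_le_mul_of_nonneg_right _ hV.le
    exact_mod_cast hl2.le
  obtain ⟨n1, n2, n3, n4⟩ := numbers δ τ a C N l hδ0 hδ2 g1 g2 g3 g4 hτ1 hTC
  have htail := small_tail C s B M0 a τ hC hs0 hB0 ha0 hM01 hT0 hTC
  obtain ⟨q, hq⟩ : ∃ q, q = Real.exp (-δ) := ⟨_, rfl⟩
  have hq0 : 0 < q := by rw [hq]; exact Real.exp_pos _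
  have hq1 : q ≤ 1 := by
    rw [hq]
    exact Real.exp_le_one_iff.2 (by linarith)
  have hqδ : 1 - q ≤ δ := by
    rw [hq]
    have := Real.add_one_le_exp (-δ)
    linarith
  rw [← hq] at n1 n2 n3 n4 hvoid
  obtain ⟨E, hE⟩ : ∃ E, E = Real.exp (-a) := ⟨_, rfl⟩
  have hE0 : 0 < E := by rw [hE]; exact Real.exp_pos _
  rw [← hE] at n1 n2 n3 n4 htail hTC hxx
  -- `l ≥ 1`
  have hlpos : 1 ≤ l := by
    have h1 : E ≤ 1 / 3 := by
      have h2 : 3 * C * E ≤ C := by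
        calc 3 * C * E ≤ τ * E := mul_le_mul_of_nonneg_right (by linarith) hE0.le
          _ ≤ C := hTC
      nlinarith
    have h2 : 1 - a ≤ E := by
      rw [hE]
      have := Real.add_one_le_exp (-a)
      linarith
    have h3 : (Δ : ℝ) * V ≤ L * V := by
      rw [← hδ, ← ha]
      linarith
    have h4 : Δ ≤ L := by
      have := le_of_mul_le_mul_right h3 hV
      exact_mod_cast this
    rw [hl]
    exact (Nat.one_le_div_iff (by omega)).2 h4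
  have hN0 : (0 : ℝ) ≤ N := Nat.cast_nonneg _
  have hl0 : (0 : ℝ) ≤ l := Nat.cast_nonneg _
  -- sizes of `N` and `l`
  have hNN : N ≤ ⌈M1 / κ⌉₊ := by
    have h1 : (N : ℝ) ≤ M1 / κ := by
      rw [le_div_iff₀ hκ0]
      calc (N : ℝ) * κ ≤ N * δ := mul_le_mul_of_nonneg_left hΔ1 hN0
        _ ≤ M1 := g1.trans hT1
    exact_mod_cast h1.trans (Nat.le_ceil _)
  have hll : l ≤ ⌈M1 / κ⌉₊ := by
    have h1 : (l : ℝ) ≤ M1 / κ := by
      rw [le_div_iff₀ hκ0]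
      calc (l : ℝ) * κ ≤ l * δ := mul_le_mul_of_nonneg_left hΔ1 hl0
        _ ≤ M1 := g3.trans hL1
    exact_mod_cast h1.trans (Nat.le_ceil _)
  have hNR : R + 1 ≤ N := by
    have h1 : (R : ℝ) + 3 ≤ (N + 1) * 1 := by
      calc (R : ℝ) + 3 ≤ τ := by linarith
        _ ≤ (N + 1) * δ := g2
        _ ≤ (N + 1) * 1 := mul_le_mul_of_nonneg_left (by linarith) (by positivity)
    have h2 : (R : ℝ) + 2 ≤ N := by linarith
    have : R + 2 ≤ N := by exact_mod_cast h2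
    omega
  have hNN' : (N : ℝ) ≤ N' := by exact_mod_cast (by omega : N ≤ N')
  -- the two probabilities
  obtain ⟨p1, hp1⟩ : ∃ p1, p1 = (1 - q) * q ^ (l + 1) := ⟨_, rfl⟩
  obtain ⟨p2, hp2⟩ : ∃ p2, p2 = (1 - q) * q ^ (l - 1) := ⟨_, rfl⟩
  have hp10 : 0 ≤ p1 := by rw [hp1]; exact mul_nonneg (by linarith) (by positivity)
  have hp12 : p1 ≤ p2 := by
    rw [hp1, hp2]
    exact mul_le_mul_of_nonneg_left (pow_le_pow_of_le_one hq0.le hq1 (by omega)) (by linarith)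
  have hp2s : (2 * l + B) * p2 ≤ s := by
    rw [← hp2] at n4
    have h1 : (2 * (l : ℝ) + B) * δ ≤ 2 * a + B := by nlinarith
    calc (2 * (l : ℝ) + B) * p2 ≤ (2 * l + B) * (3 * δ * E) :=
          mul_le_mul_of_nonneg_left n4 (by positivity)
      _ = ((2 * l + B) * δ) * (3 * E) := by ring
      _ ≤ (2 * a + B) * (3 * E) := mul_le_mul_of_nonneg_right h1 (by positivity)
      _ ≤ (2 * a + B) * (8 * E) := by
        apply mul_le_mul_of_nonneg_left _ (by positivity)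
        linarith
      _ ≤ s := htail
  rw [← hp1] at n1 n2
  rw [← hp2] at n3
  -- the law for `W`
  have hδC : 7 * δ * C + δ ≤ s := by
    calc 7 * δ * C + δ = δ * (7 * C + 1) := by ring
      _ ≤ (2 * κ) * (7 * C + 1) := mul_le_mul_of_nonneg_right hΔ2 (by positivity)
      _ = κ * (14 * C + 2) := by ring
      _ ≤ s := hκs
  have hδC0 : 0 ≤ δ * C := by positivity
  have hpow : (2 * (N : ℝ)) ^ (R + 1) * e ≤ s := by
    calc (2 * (N : ℝ)) ^ (R + 1) * e ≤ ((2 * (N' : ℝ)) ^ (R + 1) + 4 * N' + 2) * e := by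
          apply mul_le_mul_of_nonneg_right _ he0.le
          have : (2 * (N : ℝ)) ^ (R + 1) ≤ (2 * (N' : ℝ)) ^ (R + 1) := by gcongr
          linarith
      _ = e * ((2 * (N' : ℝ)) ^ (R + 1) + 4 * N' + 2) := mul_comm _ _
      _ ≤ s := hes
  have hlin : (4 * (N : ℝ) + 2) * e ≤ s := by
    calc (4 * (N : ℝ) + 2) * e ≤ ((2 * (N' : ℝ)) ^ (R + 1) + 4 * N' + 2) * e := by
          apply mul_le_mul_of_nonneg_right _ he0.le
          have : (0 : ℝ) ≤ (2 * (N' : ℝ)) ^ (R + 1) := by positivity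
          linarith
      _ = e * ((2 * (N' : ℝ)) ^ (R + 1) + 4 * N' + 2) := mul_comm _ _
      _ ≤ s := hes
  have hlawW := hW Om (hit Q y Δ) q N N' e (l + 1) x hq0.le hq1 he0.le hvoid (by omega) hNR hx0 hxC
    (by rw [← hp1]; exact n1.trans hTC) (by
      rw [← hp1]
      have h1 := abs_sub_le x (τ * E) (N * p1)
      have h2 : |τ * E - N * p1| ≤ η / 2 := by
        rw [abs_of_nonneg (by linarith)]
        linarith
      linarith) (by
      rw [← hp1]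
      push_cast
      calc ((l : ℝ) + 1 + (R + 1) ^ 2) * p1 ≤ (2 * l + B) * p2 := by
            apply mul_le_mul _ hp12 hp10 (by positivity)
            rw [hB]
            linarith
        _ ≤ η := hp2s.trans hsη) (hpow.trans hsη) A
  -- comparison of `W` and `NL`
  have hOm : (0 : ℝ) ≤ Om.card := Nat.cast_nonneg _
  have hle : ∀ n ∈ Om, W (hit Q y Δ) (l + 1) N n ≤ NL Q y T L n := fun n _ =>
    W_le_NL Q y Δ T L N (l + 1) n hΔpos hN1 hl2.le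
  have hsand := sandwich Om (W (hit Q y Δ) (l + 1) N) (NL Q y T L) hle A
  have hup : ∑ n ∈ Om, (NL Q y T L n : ℝ) ≤
      ∑ n ∈ Om, (W (hit Q y Δ) (l - 1) N n : ℝ) + (pat Om (hit Q y Δ) {N} ∅).card := by
    rw [← sum_pat, ← sum_add_distrib]
    apply sum_le_sum
    intro n _
    have := NL_le Q y Δ T L N (l - 1) n hΔpos hN2 (by rwa [show l - 1 + 1 = l by omega])
    exact_mod_cast this
  have hfm1 := first_moment Om (hit Q y Δ) q hq0.le hq1 N N' e he0.le hvoid (l + 1) (by omega) (by omega)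
  have hfm2 := first_moment Om (hit Q y Δ) q hq0.le hq1 N N' e he0.le hvoid (l - 1) (by omega) (by omega)
  have hlast := pattern_law Om (hit Q y Δ) q N' e hvoid {N} ∅ (by
    intro x hx
    rw [mem_singleton] at hx
    rw [hx]
    exact mem_range.2 (by omega)) (empty_subset _) (disjoint_empty_right _)
  rw [card_singleton, card_empty, pow_one, pow_zero, mul_one, pow_one] at hlast
  rw [← hp1] at hfm1
  rw [← hp2] at hfm2
  have hl1' : ((l - 1 : ℕ) : ℝ) + 1 = l := by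
    have : l - 1 + 1 = l := by omega
    exact_mod_cast this
  rw [hl1'] at hfm2
  push_cast at hfm1
  have k1 := (abs_le.1 hfm1).1
  have k2 := (abs_le.1 hfm2).2
  have k3 := (abs_le.1 hlast).2
  have hD : ∑ n ∈ Om, (NL Q y T L n : ℝ) - ∑ n ∈ Om, (W (hit Q y Δ) (l + 1) N n : ℝ) ≤
      (3 * s) * Om.card := by
    have h1 : ∑ n ∈ Om, (NL Q y T L n : ℝ) - ∑ n ∈ Om, (W (hit Q y Δ) (l + 1) N n : ℝ) ≤
        (N * p2 - N * p1 + (1 - q) + (l * p2 + (l + 2) * p1) + (4 * N + 2) * e) * Om.card := by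
      calc _ ≤ (Om.card * (N * p2) + (l * p2 + 2 * N * e) * Om.card) +
            (Om.card * (1 - q) + 2 * (e * Om.card)) -
            (Om.card * (N * p1) - ((l + 1 + 1) * p1 + 2 * N * e) * Om.card) := by linarith
        _ = _ := by ring
    refine h1.trans (mul_le_mul_of_nonneg_right ?_ hOm)
    have h2 : N * p2 - N * p1 ≤ 7 * δ * C := by linarith
    have h3 : l * p2 + (l + 2) * p1 ≤ (2 * l + B) * p2 := by
      have h4 : ((l : ℝ) + 2) * p1 ≤ (l + 2) * p2 := mul_le_mul_of_nonneg_left hp12 (by positivity)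
      have h5 : (2 * (l : ℝ) + 2) * p2 ≤ (2 * l + B) * p2 := by
        apply mul_le_mul_of_nonneg_right _ (hp10.trans hp12)
        rw [hB]
        have : (0 : ℝ) ≤ (R + 1) ^ 2 := by positivity
        linarith
      linarith
    linarith
  have h9 := abs_sub_le ((Om.filter (fun n => NL Q y T L n ∈ A)).card : ℝ)
    ((Om.filter (fun n => W (hit Q y Δ) (l + 1) N n ∈ A)).card : ℝ)
    (Om.card * ∑ j ∈ A, Real.exp (-x) * x ^ j / j.factorial)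
  have h10 : 3 * s * (Om.card : ℝ) ≤ 3 * (ε / 8) * Om.card := by
    apply mul_le_mul_of_nonneg_right _ hOm
    linarith
  have h11 : 0 ≤ ε * (Om.card : ℝ) := by positivity
  calc _ ≤ _ := h9
    _ ≤ 3 * s * Om.card + ε / 2 * Om.card := add_le_add (hsand.trans hD) hlawW
    _ ≤ ε * Om.card := by linarith

open Classical in
/-- **The Poisson law for the number of large gaps**, uniform in the sieve. -/
theorem ev_gen (c : ℕ) (hc : 1 ≤ c) (C ε : ℝ) (hC : 0 < C) (hε : 0 < ε) :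
    ∃ M0 κ ζ : ℝ, 1 ≤ M0 ∧ 0 < κ ∧ κ ≤ 1 / 4 ∧ 0 < ζ ∧ ∀ M1 : ℝ, 0 ≤ M1 → ∃ (K0 y0 T0 R0 : ℕ) (η' x1 : ℝ),
      0 < η' ∧ 0 < x1 ∧ ∀ (Q : ℕ → ℕ → Prop) (Z Y y : ℕ), PerB Q c → (∀ p : ℕ, p.Prime → nuB Q p < p) →
      y0 ≤ y → y ^ K0 ≤ Y → Vq Q y ≤ κ →
      (∀ T : ℕ, κ ≤ T * Vq Q y → T * Vq Q y ≤ x1 → T0 ≤ T ∧ T ^ R0 ≤ Y ∧ ∀ t ∈ Icc 1 T,
        ((((pz y).filter (fun p : ℕ => T < p ∧ CoG Q p t)).card : ℕ) : ℝ) ≤ η' * T) →
      ∀ H : Finset ℕ, H ⊆ {0} →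
      |((OmZ Q y H Z Y).card : ℝ) - Y * Vq (QH Q H) y| ≤ ε * (Y * Vq (QH Q H) y) ∧
      ∀ (T L : ℕ) (x : ℝ), M0 ≤ T * Vq Q y → T * Vq Q y ≤ M1 → L * Vq Q y ≤ M1 →
        T * Vq Q y * Real.exp (-(L * Vq Q y)) ≤ C → 0 ≤ x → x ≤ C →
        |x - T * Vq Q y * Real.exp (-(L * Vq Q y))| ≤ ζ → ∀ A : Finset ℕ,
          |(((OmZ Q y H Z Y).filter (fun n => NL Q y T L n ∈ A)).card : ℝ) - (OmZ Q y H Z Y).card *
            ∑ j ∈ A, Real.exp (-x) * x ^ j / j.factorial| ≤ ε * (OmZ Q y H Z Y).card := by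
  obtain ⟨M0, κ, ζ, hM0, hκ, hκ4, hζ, hone⟩ := ev_one C ε hC hε
  refine ⟨M0, κ, ζ, hM0, hκ, hκ4, hζ, ?_⟩
  intro M1 hM1
  obtain ⟨N', e, hN', he, hone⟩ := hone M1 hM1
  obtain ⟨K0, y0, T0, R0, η', hη', hvoid⟩ := void_law c hc N' hN' (2 * κ) (min e ε) (by positivity)
    (by positivity)
  have hN'r : (1 : ℝ) ≤ N' := by exact_mod_cast hN'
  refine ⟨K0, y0, T0, R0, η', N' * (2 * κ), hη', by positivity, ?_⟩
  intro Q Z Y y hQ hadm hy hyY hVκ hT H hH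
  have hV0 : 0 < Vq Q y := Vq_pos Q hadm y
  obtain ⟨Δ, h1, h2, _⟩ := exists_window (Vq Q y) κ hV0 hVκ
  have h3 : κ ≤ (N' * Δ : ℕ) * Vq Q y := by
    push_cast
    calc κ ≤ 1 * (Δ * Vq Q y) := by linarith
      _ ≤ N' * (Δ * Vq Q y) := mul_le_mul_of_nonneg_right hN'r (by positivity)
      _ = _ := by ring
  have h4 : (N' * Δ : ℕ) * Vq Q y ≤ N' * (2 * κ) := by
    push_cast
    calc (N' : ℝ) * Δ * Vq Q y = N' * (Δ * Vq Q y) := by ring
      _ ≤ _ := mul_le_mul_of_nonneg_left h2 (by positivity)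
  obtain ⟨h5, h6, h7⟩ := hT (N' * Δ) h3 h4
  obtain ⟨h8, h9⟩ := hvoid Q Z Y y Δ hQ hadm hy hyY h5 h6 h7 h2 H hH
  have hVH : 0 ≤ Vq (QH Q H) y := Vq_nonneg _ y
  refine ⟨h8.trans (mul_le_mul_of_nonneg_right (min_le_right _ _) (by positivity)), ?_⟩
  intro T L x hT0 hT1 hL1 hTC hx0 hxC hxx A
  refine hone Q y Δ (OmZ Q y H Z Y) (Vq Q y) hV0 h1 h2 ?_ T L x hT0 hT1 hL1 hTC hx0 hxC hxx A
  intro U hU
  refine (h9 U hU).trans ?_
  exact mul_le_mul_of_nonneg_right (min_le_left _ _) (Nat.cast_nonneg _)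

end Pool.Agent.Q236.EV
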