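import Pool.Agent.Q236.EV.Abs

set_option autoImplicit false

/-!
# Cells: the Poisson law for the number of long voids
-/

namespace Pool.Agent.Q236.EV

open Finset Pool.Agent.TH464.PO

lemma pow_diff (x y : ℝ) (hx : 0 ≤ x) (hxy : x ≤ y) (k : ℕ) : y ^ k - x ^ k ≤ k * (1 + y) ^ k * (y - x) := by
  induction k with
  | zero => simp
  | succ k ih =>
    have hy : 0 ≤ y := hx.trans hxy
    have e : y ^ (k + 1) - x ^ (k + 1) = y * (y ^ k - x ^ k) + x ^ k * (y - x) := by ring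
    rw [e]
    have h1 : y * (y ^ k - x ^ k) ≤ (1 + y) * (k * (1 + y) ^ k * (y - x)) := by
      apply mul_le_mul (by linarith) ih _ (by linarith)
      exact sub_nonneg.2 (pow_le_pow_left₀ hx hxy k)
    have h2 : x ^ k * (y - x) ≤ (1 + y) ^ (k + 1) * (y - x) := by
      apply mul_le_mul_of_nonneg_right _ (by linarith)
      calc x ^ k ≤ (1 + y) ^ k := pow_le_pow_left₀ hx (by linarith) k
        _ ≤ (1 + y) ^ (k + 1) := pow_le_pow_right₀ (by linarith) (by omega)
    push_cast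
    calc _ ≤ (1 + y) * (k * (1 + y) ^ k * (y - x)) + (1 + y) ^ (k + 1) * (y - x) := add_le_add h1 h2
      _ = _ := by ring

open Classical in
/-- **The Poisson law for the number of long voids.** -/
theorem W_law (C ε : ℝ) (hC : 0 ≤ C) (hε : 0 < ε) : ∃ (R : ℕ) (η : ℝ), 0 < η ∧ η ≤ 1 ∧
    ∀ (Om : Finset ℕ) (hit : ℕ → ℕ → Prop) (q : ℝ) (N N' : ℕ) (e : ℝ) (m : ℕ) (x : ℝ),
    0 ≤ q → q ≤ 1 → 0 ≤ e → Void Om hit q N' e → N + m ≤ N' → R + 1 ≤ N → 0 ≤ x → x ≤ C →
    N * ((1 - q) * q ^ m) ≤ C → |x - N * ((1 - q) * q ^ m)| ≤ η → (m + (R + 1) ^ 2) * ((1 - q) * q ^ m) ≤ η →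
    (2 * N) ^ (R + 1) * e ≤ η →
    ∀ A : Finset ℕ, |((Om.filter (fun n => W hit m N n ∈ A)).card : ℝ) -
      Om.card * ∑ j ∈ A, Real.exp (-x) * x ^ j / j.factorial| ≤ ε * Om.card := by
  obtain ⟨R, η1, hη1, htv⟩ := law_tv C ε hC hε
  obtain ⟨G, hG⟩ : ∃ G : ℝ, G = (1 + C) ^ (R + 1) := ⟨_, rfl⟩
  have hG1 : 1 ≤ G := by rw [hG]; exact one_le_pow₀ (by linarith)
  obtain ⟨η, hη⟩ : ∃ η : ℝ, η = min 1 (η1 / ((R + 3) * G)) := ⟨_, rfl⟩
  have hη0 : 0 < η := by rw [hη]; positivity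
  have hηη : η * ((R + 3) * G) ≤ η1 := by
    have : η ≤ η1 / ((R + 3) * G) := by rw [hη]; exact min_le_right _ _
    rwa [le_div_iff₀ (by positivity)] at this
  refine ⟨R, η, hη0, by rw [hη]; exact min_le_left _ _, ?_⟩
  intro Om hit q N N' e m x hq hq1 he hv hN hRN hx0 hxC hμC hxμ hmp hNe
  have hOm : (0 : ℝ) ≤ Om.card := Nat.cast_nonneg _
  have hN0 : (0 : ℝ) ≤ N := Nat.cast_nonneg _
  obtain ⟨p, hp⟩ : ∃ p, p = (1 - q) * q ^ m := ⟨_, rfl⟩
  have hp0 : 0 ≤ p := by rw [hp]; exact mul_nonneg (by linarith) (by positivity)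
  rw [← hp] at hμC hxμ hmp
  obtain ⟨μ, hμ⟩ : ∃ μ, μ = N * p := ⟨_, rfl⟩
  have hμ0 : 0 ≤ μ := by rw [hμ]; positivity
  rw [← hμ] at hμC hxμ
  apply htv Om (W hit m N) x hx0 hxC
  intro k hk
  rcases k with _ | k
  · simp
    positivity
  · have h1 := moment_bound Om hit q hq hq1 N N' e he hv m k hN (by omega)
    rw [← hp, ← hμ] at h1
    have hfac : (1 : ℝ) ≤ (k + 1).factorial := by exact_mod_cast Nat.factorial_pos (k + 1)
    have hkR : (k : ℝ) + 1 ≤ R := by exact_mod_cast hk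
    have hk0 : (0 : ℝ) ≤ k := Nat.cast_nonneg k
    have hpowG : ∀ j : ℕ, j ≤ R + 1 → (1 + C) ^ j ≤ G := by
      intro j hj
      rw [hG]
      exact pow_le_pow_right₀ (by linarith) hj
    have h2 : (m + (k + 1) ^ 2) * p * μ ^ k ≤ η * G := by
      apply mul_le_mul _ _ (by positivity) hη0.le
      · refine le_trans ?_ hmp
        apply mul_le_mul_of_nonneg_right _ hp0
        have : ((k : ℝ) + 1) ^ 2 ≤ (R + 1) ^ 2 := pow_le_pow_left₀ (by positivity) (by linarith) 2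
        linarith
      · calc μ ^ k ≤ (1 + C) ^ k := pow_le_pow_left₀ hμ0 (by linarith) k
          _ ≤ G := hpowG k (by omega)
    have h3 : (2 * (N : ℝ)) ^ (k + 1) * e ≤ η * G := by
      calc (2 * (N : ℝ)) ^ (k + 1) * e ≤ (2 * (N : ℝ)) ^ (R + 1) * e := by
            apply mul_le_mul_of_nonneg_right _ he
            apply pow_le_pow_right₀ _ (by omega)
            have : (1 : ℝ) ≤ N := by exact_mod_cast (by omega : 1 ≤ N)
            linarith
        _ ≤ η := hNe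
        _ = η * 1 := (mul_one η).symm
        _ ≤ η * G := mul_le_mul_of_nonneg_left hG1 hη0.le
    have h4 : |μ ^ (k + 1) / (k + 1).factorial - x ^ (k + 1) / (k + 1).factorial| ≤ R * G * η := by
      rw [← sub_div, abs_div, abs_of_pos (show (0 : ℝ) < (k + 1).factorial by linarith), abs_sub_comm]
      have h5 : |x ^ (k + 1) - μ ^ (k + 1)| ≤ ((k + 1 : ℕ) : ℝ) * (1 + C) ^ (k + 1) * |x - μ| := by
        rcases le_total μ x with h | h
        · have h6 := pow_diff μ x hμ0 h (k + 1)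
          rw [abs_of_nonneg (sub_nonneg.2 (pow_le_pow_left₀ hμ0 h (k + 1))), abs_of_nonneg (sub_nonneg.2 h)]
          refine h6.trans ?_
          apply mul_le_mul_of_nonneg_right _ (sub_nonneg.2 h)
          apply mul_le_mul_of_nonneg_left _ (Nat.cast_nonneg _)
          exact pow_le_pow_left₀ (by linarith) (by linarith) _
        · have h6 := pow_diff x μ hx0 h (k + 1)
          rw [abs_sub_comm, abs_of_nonneg (sub_nonneg.2 (pow_le_pow_left₀ hx0 h (k + 1))),
            abs_sub_comm x μ, abs_of_nonneg (sub_nonneg.2 h)]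
          refine h6.trans ?_
          apply mul_le_mul_of_nonneg_right _ (sub_nonneg.2 h)
          apply mul_le_mul_of_nonneg_left _ (Nat.cast_nonneg _)
          exact pow_le_pow_left₀ (by linarith) (by linarith) _
      calc |x ^ (k + 1) - μ ^ (k + 1)| / (k + 1).factorial ≤ |x ^ (k + 1) - μ ^ (k + 1)| :=
            div_le_self (abs_nonneg _) hfac
        _ ≤ ((k + 1 : ℕ) : ℝ) * (1 + C) ^ (k + 1) * |x - μ| := h5
        _ ≤ R * G * η := by
          apply mul_le_mul _ hxμ (abs_nonneg _) (by positivity)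
          push_cast
          apply mul_le_mul hkR (hpowG (k + 1) (by omega)) (by positivity) (Nat.cast_nonneg R)
    have h5 : |Om.card * (μ ^ (k + 1) / (k + 1).factorial) - Om.card * (x ^ (k + 1) / (k + 1).factorial)| ≤
        R * G * η * Om.card := by
      rw [← mul_sub, abs_mul, abs_of_nonneg hOm, mul_comm]
      exact mul_le_mul_of_nonneg_right h4 hOm
    have h6 := abs_sub_le (∑ n ∈ Om, ((W hit m N n).choose (k + 1) : ℝ))
      (Om.card * (μ ^ (k + 1) / (k + 1).factorial)) (Om.card * (x ^ (k + 1) / (k + 1).factorial))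
    have h7 : ((m + (k + 1) ^ 2) * p * μ ^ k + (2 * N) ^ (k + 1) * e) * Om.card ≤
        (η * G + η * G) * Om.card := mul_le_mul_of_nonneg_right (by linarith) hOm
    have h8 : (R * G * η + 2 * (η * G)) * Om.card ≤ η1 * Om.card := by
      apply mul_le_mul_of_nonneg_right _ hOm
      have h9 : 0 ≤ η * G := by positivity
      nlinarith
    calc _ ≤ _ := h6
      _ ≤ (η * G + η * G) * Om.card + R * G * η * Om.card := add_le_add (h1.trans h7) h5
      _ ≤ _ := by linarith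

open Classical in
/-- comparison of the laws of two functions -/
lemma sandwich (Om : Finset ℕ) (f g : ℕ → ℕ) (hfg : ∀ n ∈ Om, f n ≤ g n) (A : Finset ℕ) :
    |((Om.filter (fun n => g n ∈ A)).card : ℝ) - ((Om.filter (fun n => f n ∈ A)).card : ℝ)| ≤
      ∑ n ∈ Om, (g n : ℝ) - ∑ n ∈ Om, (f n : ℝ) := by
  have e1 : ∀ h : ℕ → ℕ, ((Om.filter (fun n => h n ∈ A)).card : ℝ) =
      ∑ n ∈ Om, if h n ∈ A then (1 : ℝ) else 0 := by
    intro h
    rw [Finset.sum_ite, Finset.sum_const_zero, add_zero, Finset.sum_const, nsmul_eq_mul, mul_one]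
  rw [e1, e1, ← sum_sub_distrib, ← sum_sub_distrib]
  refine (abs_sum_le_sum_abs _ _).trans ?_
  apply sum_le_sum
  intro n hn
  have h1 := hfg n hn
  rcases eq_or_lt_of_le h1 with h2 | h2
  · rw [h2]
    simp
  · have h3 : (f n : ℝ) + 1 ≤ g n := by exact_mod_cast h2
    split_ifs <;> simp <;> linarith

/-- the first moment -/
lemma first_moment (Om : Finset ℕ) (hit : ℕ → ℕ → Prop) (q : ℝ) (hq : 0 ≤ q) (hq1 : q ≤ 1) (N N' : ℕ) (e : ℝ)
    (he : 0 ≤ e) (hv : Void Om hit q N' e) (m : ℕ) (hN : N + m ≤ N') (hkN : 1 ≤ N) :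
    |∑ n ∈ Om, (W hit m N n : ℝ) - Om.card * (N * ((1 - q) * q ^ m))| ≤
    ((m + 1) * ((1 - q) * q ^ m) + 2 * N * e) * Om.card := by
  have h := moment_bound Om hit q hq hq1 N N' e he hv m 0 hN (by omega)
  simpa using h

end Pool.Agent.Q236.EV
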