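import Pool.Agent.Q236.EV.Gen2
import Pool.Agent.Q236.EV.Sizes

set_option autoImplicit false

/-!
# The Poisson law for the number of large gaps, for systems of polynomials
-/

namespace Pool.Agent.Q236.EV

open Polynomial Finset Filter
open Pool.Agent.W123.RP Pool.Agent.H373R2.T7 Pool.Agent.W123.RU Pool.Agent.W123.RU.Poly
open Pool.Agent.TH464.PW Pool.Agent.TH464.PO Pool.Agent.Y879.AP Pool.Agent.Y879.GL Pool.Agent.Q236.GW
open Pool.Agent.Q236.CP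

/-- the mean for rounded parameters -/
lemma mean_close (U V M u : ℝ) (_hU : 0 ≤ U) (hV : 0 < V) (hV1 : V ≤ 1 / 2) (hM1 : 1 ≤ M)
    (hMU : Real.exp U ≤ M) (hu : |u| ≤ U) :
    |Real.exp (-u) - (⌊M / V⌋₊ : ℝ) * V * Real.exp (-((⌊(Real.log M + u) / V⌋₊ : ℝ) * V))| ≤
      2 * V * Real.exp U ∧ M - V ≤ (⌊M / V⌋₊ : ℝ) * V ∧ (⌊M / V⌋₊ : ℝ) * V ≤ M ∧
      (⌊(Real.log M + u) / V⌋₊ : ℝ) * V ≤ M + U := by
  obtain ⟨hu1, hu2⟩ := abs_le.1 hu
  have hM0 : 0 < M := by linarith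
  have hlog : U ≤ Real.log M := by
    rw [Real.le_log_iff_exp_le hM0]
    exact hMU
  have h0 : 0 ≤ (Real.log M + u) / V := div_nonneg (by linarith) hV.le
  have hT1 : (⌊M / V⌋₊ : ℝ) * V ≤ M := by
    have := Nat.floor_le (show 0 ≤ M / V by positivity)
    rwa [le_div_iff₀ hV] at this
  have hT2 : M - V ≤ (⌊M / V⌋₊ : ℝ) * V := by
    have := (Nat.lt_floor_add_one (M / V)).le
    rw [div_le_iff₀ hV] at this
    linarith
  have hL1 : (⌊(Real.log M + u) / V⌋₊ : ℝ) * V ≤ Real.log M + u := by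
    have := Nat.floor_le h0
    rwa [le_div_iff₀ hV] at this
  have hL2 : Real.log M + u - V ≤ (⌊(Real.log M + u) / V⌋₊ : ℝ) * V := by
    have := (Nat.lt_floor_add_one ((Real.log M + u) / V)).le
    rw [div_le_iff₀ hV] at this
    linarith
  obtain ⟨τ, hτ⟩ : ∃ τ : ℝ, τ = (⌊M / V⌋₊ : ℝ) * V := ⟨_, rfl⟩
  obtain ⟨a, ha⟩ : ∃ a : ℝ, a = (⌊(Real.log M + u) / V⌋₊ : ℝ) * V := ⟨_, rfl⟩
  rw [← hτ] at hT1 hT2 ⊢
  rw [← ha] at hL1 hL2 ⊢
  have hlogM : Real.log M ≤ M := (Real.log_le_sub_one_of_pos hM0).trans (by linarith)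
  refine ⟨?_, hT2, hT1, by linarith⟩
  have e1 : Real.exp (-(Real.log M + u)) = Real.exp (-u) / M := by
    rw [neg_add, Real.exp_add, Real.exp_neg, Real.exp_log hM0, div_eq_mul_inv, mul_comm]
  have hEu : Real.exp (-u) ≤ Real.exp U := Real.exp_le_exp.2 (by linarith)
  have hEu0 : 0 < Real.exp (-u) := Real.exp_pos _
  have hlow : Real.exp (-u) / M ≤ Real.exp (-a) := by
    rw [← e1]
    exact Real.exp_le_exp.2 (by linarith)
  have hup : Real.exp (-a) ≤ Real.exp (-u) / M * (1 + 2 * V) := by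
    have h1 : Real.exp (-a) ≤ Real.exp (-u) / M * Real.exp V := by
      rw [← e1, ← Real.exp_add]
      exact Real.exp_le_exp.2 (by linarith)
    refine h1.trans ?_
    apply mul_le_mul_of_nonneg_left _ (by positivity)
    have h5 := Real.abs_exp_sub_one_le (x := V) (by rw [abs_of_pos hV]; linarith)
    rw [abs_of_pos hV] at h5
    have := (abs_le.1 h5).2
    linarith
  have hτ0 : 0 ≤ τ := by linarith
  have h1 : (M - V) * (Real.exp (-u) / M) ≤ τ * Real.exp (-a) :=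
    mul_le_mul hT2 hlow (by positivity) hτ0
  have h2 : τ * Real.exp (-a) ≤ M * (Real.exp (-u) / M * (1 + 2 * V)) :=
    mul_le_mul hT1 hup (Real.exp_pos _).le hM0.le
  have e2 : (M - V) * (Real.exp (-u) / M) = Real.exp (-u) - V * (Real.exp (-u) / M) := by
    field_simp
  have e3 : M * (Real.exp (-u) / M * (1 + 2 * V)) = Real.exp (-u) + 2 * V * Real.exp (-u) := by
    field_simp
  rw [e2] at h1
  rw [e3] at h2
  have h3 : Real.exp (-u) / M ≤ Real.exp U := (div_le_self hEu0.le hM1).trans hEu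
  have h4 : V * (Real.exp (-u) / M) ≤ V * Real.exp U := mul_le_mul_of_nonneg_left h3 hV.le
  have h5 : V * Real.exp (-u) ≤ V * Real.exp U := mul_le_mul_of_nonneg_left hEu hV.le
  have h6 : 0 ≤ V * Real.exp U := by positivity
  rw [abs_le]
  constructor <;> nlinarith

open Classical in
/-- **The number of large gaps**, for systems of polynomials, uniformly. -/
theorem ev_sys (k D : ℕ) (E η θ : ℝ) (hE : 0 < E) (hη : 0 < η) (hθ : 0 < θ) (U ε : ℝ) (hU : 0 ≤ U)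
    (hε : 0 < ε) :
    ∃ M₀ : ℝ, 1 ≤ M₀ ∧ ∀ M₁ : ℝ, ∃ r0 : ℕ, 2 ≤ r0 ∧ ∀ r : ℕ, r0 ≤ r → ∀ Cv : ℝ, 0 < Cv →
      ∀ᶠ X : ℕ in atTop, ∀ f : Fin k → ℤ[X], US k D ((X : ℝ) ^ E) ((X : ℝ) ^ η) f →
      Vq (Q f) X ≤ Cv / Real.log X → ∀ Z Y : ℕ, (X : ℝ) ^ θ ≤ Y →
      ∀ M u : ℝ, M₀ ≤ M → M ≤ M₁ → |u| ≤ U → ∀ A : Finset ℕ,
        |(((Ioc Z (Z + Y)).filter (fun n => NL (Q f) ⌊(X : ℝ) ^ (1 / (r : ℝ))⌋₊
            ⌊M / Vq (Q f) ⌊(X : ℝ) ^ (1 / (r : ℝ))⌋₊⌋₊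
            ⌊(Real.log M + u) / Vq (Q f) ⌊(X : ℝ) ^ (1 / (r : ℝ))⌋₊⌋₊ n ∈ A)).card : ℝ) -
          Y * ∑ j ∈ A, Real.exp (-(Real.exp (-u))) * Real.exp (-u) ^ j / j.factorial| ≤ ε * Y := by
  obtain ⟨C, hC⟩ : ∃ C : ℝ, C = Real.exp U + 1 := ⟨_, rfl⟩
  have hC0 : 0 < C := by rw [hC]; positivity
  obtain ⟨M0, κ, ζ, hM0, hκ, hκ4, hζ, hgen⟩ := ev_gen (k * D + 1) (by omega) C ε hC0 hε
  refine ⟨max (M0 + 1) (Real.exp U), ?_, ?_⟩
  · exact (by linarith : (1 : ℝ) ≤ M0 + 1).trans (le_max_left _ _)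
  intro M₁
  obtain ⟨K0, y0, T0, R0, η', x1, hη', hx1, hgen⟩ := hgen (max M₁ 0 + U) (by positivity)
  obtain ⟨κ2, hκ2⟩ : ∃ κ2 : ℝ, κ2 = min κ (min (ζ / (2 * Real.exp U)) (1 / (2 * Real.exp U))) := ⟨_, rfl⟩
  have hκ20 : 0 < κ2 := by rw [hκ2]; positivity
  have hκ21 : κ2 ≤ κ := by rw [hκ2]; exact min_le_left _ _
  have hκ22 : 2 * κ2 * Real.exp U ≤ ζ := by
    have : κ2 ≤ ζ / (2 * Real.exp U) := by rw [hκ2]; exact (min_le_right _ _).trans (min_le_left _ _)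
    rw [le_div_iff₀ (by positivity)] at this
    linarith
  have hκ23 : 2 * κ2 * Real.exp U ≤ 1 := by
    have : κ2 ≤ 1 / (2 * Real.exp U) := by rw [hκ2]; exact (min_le_right _ _).trans (min_le_right _ _)
    rw [le_div_iff₀ (by positivity)] at this
    linarith
  obtain ⟨r0, hr0, hsz⟩ := us_sizes k D E η θ hE hη hθ K0 y0 T0 R0 η' κ2 x1 hη' hκ20 hx1
  refine ⟨r0, hr0, ?_⟩
  intro r hr Cv hCv
  filter_upwards [hsz r hr Cv hCv] with X hX
  intro f hf hVX Z Y hY M u hM hM1 hu A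
  obtain ⟨a1, a2, a3, a4⟩ := hX f hf hVX Y hY
  obtain ⟨y, hy⟩ : ∃ y, y = ⌊(X : ℝ) ^ (1 / (r : ℝ))⌋₊ := ⟨_, rfl⟩
  rw [← hy] at a1 a2 a3 a4 ⊢
  have hV0 : 0 < Vq (Q f) y := Vq_pos (Q f) (us_adm hf) y
  obtain ⟨V, hV⟩ : ∃ V, V = Vq (Q f) y := ⟨_, rfl⟩
  have hMM : M0 + 1 ≤ M := (le_max_left _ _).trans hM
  have hMU : Real.exp U ≤ M := (le_max_right _ _).trans hM
  have hVκ : V ≤ κ2 := by rw [hV]; exact a3
  obtain ⟨b1, b2, b3, b4⟩ := mean_close U V M u hU (by rw [hV]; exact hV0) (by linarith) (by linarith) hMU hu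
  have hVU : 2 * V * Real.exp U ≤ 2 * κ2 * Real.exp U := by
    apply mul_le_mul_of_nonneg_right _ (Real.exp_pos _).le
    linarith
  have hEu : Real.exp (-u) ≤ Real.exp U := Real.exp_le_exp.2 (by linarith [(abs_le.1 hu).1])
  obtain ⟨_, h2⟩ := hgen (Q f) Z Y y (us_perB hf) (us_adm hf) a1 a2 (a3.trans hκ21)
    (fun T h1 h2 => a4 T (hκ21.trans h1) h2) ∅ (empty_subset _)
  have h3 := h2 ⌊M / V⌋₊ ⌊(Real.log M + u) / V⌋₊ (Real.exp (-u)) (by rw [← hV]; linarith)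
    (by
      rw [← hV]
      have := le_max_left M₁ 0
      linarith)
    (by
      rw [← hV]
      have := le_max_left M₁ 0
      linarith)
    (by
      rw [← hV]
      have := (abs_le.1 b1).1
      rw [hC]
      linarith) (Real.exp_pos _).le (by rw [hC]; linarith) (by
      rw [← hV]
      exact b1.trans (hVU.trans hκ22)) A
  have e1 : OmZ (Q f) y ∅ Z Y = Ioc Z (Z + Y) := by
    unfold OmZ
    simp
  have e2 : ((Ioc Z (Z + Y)).card : ℝ) = Y := by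
    rw [Nat.card_Ioc]
    congr 1
    omega
  rw [e1, e2] at h3
  rw [← hV]
  exact h3

end Pool.Agent.Q236.EV
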