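import Pool.Agent.Q236.EV.Law
import Pool.Agent.Q236.CP.Win

set_option autoImplicit false

/-!
# Cells: the void probabilities for sifted sets
-/

namespace Pool.Agent.Q236.EV

open Finset Filter Pool.Agent.H373R2.T7 Pool.Agent.W123.RP Pool.Agent.W123.RU Pool.Agent.TH464.PO
open Pool.Agent.Q236.CP

/-- the union of the cells `(i Δ, (i + 1) Δ]`, `i ∈ U` -/
def cells (Δ : ℕ) (U : Finset ℕ) : Finset ℕ := U.biUnion (fun i => Ioc (i * Δ) ((i + 1) * Δ))

/-- the cell `i` contains a sifted element -/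
def hit (Q : ℕ → ℕ → Prop) (y Δ n i : ℕ) : Prop := ∃ b ∈ Ioc (i * Δ) ((i + 1) * Δ), Sf Q y (n + b)

lemma cell_disj (Δ i j : ℕ) (h : i ≠ j) :
    Disjoint (Ioc (i * Δ) ((i + 1) * Δ)) (Ioc (j * Δ) ((j + 1) * Δ)) := by
  rw [disjoint_left]
  intro x hx hx2
  rw [mem_Ioc] at hx hx2
  rcases lt_or_gt_of_ne h with h | h
  · have : (i + 1) * Δ ≤ j * Δ := Nat.mul_le_mul_right _ h
    omega
  · have : (j + 1) * Δ ≤ i * Δ := Nat.mul_le_mul_right _ h
    omega

lemma cells_sub (Δ N : ℕ) (U : Finset ℕ) (hU : U ⊆ range N) : cells Δ U ⊆ Icc 1 (N * Δ) := by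
  intro b hb
  unfold cells at hb
  rw [mem_biUnion] at hb
  obtain ⟨i, hi, hb⟩ := hb
  rw [mem_Ioc] at hb
  have h1 := mem_range.1 (hU hi)
  have h2 : (i + 1) * Δ ≤ N * Δ := Nat.mul_le_mul_right _ h1
  rw [mem_Icc]
  omega

open Classical in
lemma reg_cells (Q : ℕ → ℕ → Prop) (c : ℕ) (hQ : PerB Q c) (w Δ N : ℕ) (U : Finset ℕ) (hU : U.card ≤ N) :
    RegB Q w (cells Δ U) (U.card * Δ) (N * Mw w) := by
  intro m
  have h1 : (((cells Δ U).filter (fun h => Sf Q w (m + h))).card : ℝ) =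
      ∑ i ∈ U, (((Icc 1 Δ).filter (fun h => Sf Q w (m + i * Δ + h))).card : ℝ) := by
    have h2 : ((cells Δ U).filter (fun h => Sf Q w (m + h))).card =
        ∑ i ∈ U, ((Icc 1 Δ).filter (fun h => Sf Q w (m + i * Δ + h))).card := by
      unfold cells
      rw [filter_biUnion, card_biUnion]
      · apply sum_congr rfl
        intro i _
        symm
        apply card_bij (fun h _ => i * Δ + h)
        · intro h hh
          rw [mem_filter, mem_Icc] at hh
          rw [mem_filter, mem_Ioc]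
          have : (i + 1) * Δ = i * Δ + Δ := by ring
          rw [← add_assoc]
          exact ⟨by omega, hh.2⟩
        · intro a _ b _ hab
          omega
        · intro b hb
          rw [mem_filter, mem_Ioc] at hb
          have : (i + 1) * Δ = i * Δ + Δ := by ring
          refine ⟨b - i * Δ, ?_, by omega⟩
          rw [mem_filter, mem_Icc, show m + i * Δ + (b - i * Δ) = m + b by omega]
          exact ⟨by omega, hb.2⟩
      · intro i _ j _ hij
        exact disjoint_filter_filter (cell_disj Δ i j hij)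
    rw [h2]
    push_cast
    rfl
  rw [h1]
  have h3 : (U.card : ℝ) * Δ * Vq Q w = ∑ _i ∈ U, (Δ : ℝ) * Vq Q w := by
    rw [sum_const, nsmul_eq_mul]
    ring
  rw [h3, ← sum_sub_distrib]
  refine (abs_sum_le_sum_abs _ _).trans ?_
  have h4 : ∀ i ∈ U, |(((Icc 1 Δ).filter (fun h => Sf Q w (m + i * Δ + h))).card : ℝ) - Δ * Vq Q w| ≤ Mw w := by
    intro i _
    exact window Q c hQ w (m + i * Δ) Δ
  refine (sum_le_sum h4).trans ?_
  rw [sum_const, nsmul_eq_mul]
  apply mul_le_mul_of_nonneg_right _ (Nat.cast_nonneg _)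
  exact_mod_cast hU

lemma nb_cells (Q : ℕ → ℕ → Prop) (y Δ n : ℕ) (U : Finset ℕ) :
    NB Q y (cells Δ U) n = 0 ↔ ∀ i ∈ U, ¬ hit Q y Δ n i := by
  classical
  unfold NB
  rw [card_eq_zero, filter_eq_empty_iff]
  constructor
  · rintro h i hi ⟨b, hb, hs⟩
    exact h (mem_biUnion.2 ⟨i, hi, hb⟩) hs
  · intro h b hb hs
    unfold cells at hb
    rw [mem_biUnion] at hb
    obtain ⟨i, hi, hb⟩ := hb
    exact h i hi ⟨b, hb, hs⟩

lemma nuB_QH_zero (Q : ℕ → ℕ → Prop) (H : Finset ℕ) (hH : H ⊆ {0}) (p : ℕ) : nuB (QH Q H) p ≤ nuB Q p := by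
  classical
  unfold nuB
  apply card_le_card
  intro r hr
  rw [mem_filter] at hr ⊢
  obtain ⟨h1, h, hh, h2⟩ := hr
  have h3 : h = 0 := by simpa using hH hh
  rw [h3, add_zero] at h2
  exact ⟨h1, h2⟩

open Classical in
/-- **The void probabilities** of the cells, uniform in the sieve. -/
theorem void_law (c : ℕ) (hc : 1 ≤ c) (N' : ℕ) (hN' : 1 ≤ N') (κ e : ℝ) (hκ : 0 ≤ κ) (he : 0 < e) :
    ∃ (K0 y0 T0 R0 : ℕ) (η' : ℝ), 0 < η' ∧ ∀ (Q : ℕ → ℕ → Prop) (Z Y y Δ : ℕ), PerB Q c →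
      (∀ p : ℕ, p.Prime → nuB Q p < p) → y0 ≤ y → y ^ K0 ≤ Y → T0 ≤ N' * Δ → (N' * Δ) ^ R0 ≤ Y →
      (∀ t ∈ Icc 1 (N' * Δ),
        ((((pz y).filter (fun p : ℕ => N' * Δ < p ∧ CoG Q p t)).card : ℕ) : ℝ) ≤ η' * ((N' * Δ : ℕ) : ℝ)) →
      Δ * Vq Q y ≤ κ → ∀ H : Finset ℕ, H ⊆ {0} →
      |((OmZ Q y H Z Y).card : ℝ) - Y * Vq (QH Q H) y| ≤ e * (Y * Vq (QH Q H) y) ∧
      Void (OmZ Q y H Z Y) (hit Q y Δ) (Real.exp (-(Δ * Vq Q y))) N' e := by
  have hNr : (1 : ℝ) ≤ N' := by exact_mod_cast hN'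
  obtain ⟨K0, y0, T0, R0, η', hη', hlaw⟩ := law' c 1 hc (fun w => N' * Mw w) (fun w => by positivity)
    (1 / N') (N' * κ) e (by positivity) (by rw [div_le_one (by linarith)]; exact hNr) (by positivity) he
  refine ⟨K0, y0, T0, R0, η', hη', ?_⟩
  intro Q Z Y y Δ hQ hadm hy hyY hT0 hTR hlarge hΔκ H hH
  have hV0 : 0 < Vq Q y := Vq_pos Q hadm y
  have hQt := perB_Qt Q c hQ Z
  have hadmt : ∀ p : ℕ, p.Prime → nuB (Qt Q Z) p < p := fun p hp => by
    rw [nuB_Qt Q c hQ]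
    exact hadm p hp
  have hadmHt : ∀ p : ℕ, p.Prime → nuB (QH (Qt Q Z) H) p < p := fun p hp =>
    (nuB_QH_zero (Qt Q Z) H hH p).trans_lt (hadmt p hp)
  have hlarget : ∀ t ∈ Icc 1 (N' * Δ),
      ((((pz y).filter (fun p : ℕ => N' * Δ < p ∧ CoG (Qt Q Z) p t)).card : ℕ) : ℝ) ≤
        η' * ((N' * Δ : ℕ) : ℝ) := by
    intro t ht
    refine le_trans ?_ (hlarge t ht)
    have : ((pz y).filter (fun p : ℕ => N' * Δ < p ∧ CoG (Qt Q Z) p t)).card ≤
        ((pz y).filter (fun p : ℕ => N' * Δ < p ∧ CoG Q p t)).card := by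
      apply card_le_card
      intro p hp
      rw [mem_filter] at hp ⊢
      obtain ⟨h1, h2, m, h3, h4⟩ := hp
      refine ⟨h1, h2, m + Z, h3, ?_⟩
      unfold Qt at h4
      rwa [show m + t + Z = m + Z + t by ring] at h4
    exact_mod_cast this
  have hfix : ∀ U : Finset ℕ, U ⊆ range N' → U.Nonempty →
      Fix (Qt Q Z) 1 (N' * Δ) (1 / N') (fun w => N' * Mw w) H (cells Δ U) (U.card * Δ) := by
    intro U hU hne
    refine ⟨?_, ?_, cells_sub Δ N' U hU, ?_, ?_, ?_⟩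
    · exact (card_le_card hH).trans (by simp)
    · intro a ha
      have : a = 0 := by simpa using hH ha
      omega
    · rw [disjoint_left]
      intro a ha hb
      have h1 : a = 0 := by simpa using hH ha
      have h2 := cells_sub Δ N' U hU hb
      rw [mem_Icc] at h2
      omega
    · have h1 : (1 : ℝ) ≤ U.card := by exact_mod_cast hne.card_pos
      have h2 : (0 : ℝ) ≤ Δ := Nat.cast_nonneg Δ
      push_cast
      have e1 : 1 / (N' : ℝ) * (N' * Δ) = Δ := by field_simp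
      rw [e1]
      nlinarith
    · intro w
      exact reg_cells (Qt Q Z) c hQt w Δ N' U (by
        have := card_le_card hU
        rwa [card_range] at this)
  have hOmZ : (OmZ Q y H Z Y).card = (Om (Qt Q Z) y H Y).card := by
    have := card_shift Q y H ∅ Z Y (fun _ => True)
    simpa using this
  have hbase : ∀ U : Finset ℕ, U ⊆ range N' → U.Nonempty →
      |((Om (Qt Q Z) y H Y).card : ℝ) - Y * Vq (QH Q H) y| ≤ e * (Y * Vq (QH Q H) y) ∧
      |((pat (OmZ Q y H Z Y) (hit Q y Δ) ∅ U).card : ℝ) -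
        (Om (Qt Q Z) y H Y).card * Real.exp (-(Δ * Vq Q y)) ^ U.card| ≤ e * (Om (Qt Q Z) y H Y).card := by
    intro U hU hne
    have hUN : (U.card : ℝ) ≤ N' := by
      have := card_le_card hU
      rw [card_range] at this
      exact_mod_cast this
    obtain ⟨h1, h2⟩ := hlaw Y y (N' * Δ) hy hyY hT0 hTR (Qt Q Z) hQt hadmt hlarget H (cells Δ U)
      (U.card * Δ) (hfix U hU hne) hadmHt (by
        rw [Vq_Qt Q c hQ]
        calc (U.card : ℝ) * Δ * Vq Q y = U.card * (Δ * Vq Q y) := by ring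
          _ ≤ N' * κ := by
            apply mul_le_mul hUN hΔκ (by positivity) (by positivity))
    rw [Vq_QH_Qt Q c hQ] at h1
    refine ⟨h1, ?_⟩
    have h3 := h2 {0}
    rw [Vq_Qt Q c hQ, sum_singleton] at h3
    have e2 : Real.exp (-((U.card : ℝ) * Δ * Vq Q y)) * ((U.card : ℝ) * Δ * Vq Q y) ^ 0 / ((Nat.factorial 0 : ℕ) : ℝ) =
        Real.exp (-(Δ * Vq Q y)) ^ U.card := by
      rw [pow_zero, Nat.factorial_zero, Nat.cast_one, mul_one, div_one, ← Real.exp_nat_mul]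
      congr 1
      ring
    rw [e2] at h3
    have e3 : (pat (OmZ Q y H Z Y) (hit Q y Δ) ∅ U).card =
        ((Om (Qt Q Z) y H Y).filter (fun n => NB (Qt Q Z) y (cells Δ U) n ∈ ({0} : Finset ℕ))).card := by
      have h4 := card_shift Q y H (cells Δ U) Z Y (fun j => j ∈ ({0} : Finset ℕ))
      have h5 : pat (OmZ Q y H Z Y) (hit Q y Δ) ∅ U =
          (OmZ Q y H Z Y).filter (fun n => NB Q y (cells Δ U) n ∈ ({0} : Finset ℕ)) := by
        unfold pat
        apply filter_congr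
        intro n _
        rw [mem_singleton, nb_cells]
        simp
      rw [h5]
      convert h4
    rw [e3]
    exact h3
  have hone := hbase {0} (by
    intro x hx
    rw [mem_singleton] at hx
    rw [hx]
    exact mem_range.2 (by omega)) (singleton_nonempty 0)
  rw [hOmZ]
  refine ⟨hone.1, ?_⟩
  intro U hU
  rcases U.eq_empty_or_nonempty with h | h
  · rw [h]
    have : pat (OmZ Q y H Z Y) (hit Q y Δ) ∅ ∅ = OmZ Q y H Z Y := by
      unfold pat
      simp
    rw [this, card_empty, pow_zero, mul_one, sub_self, abs_zero]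
    positivity
  · rw [hOmZ]
    exact (hbase U hU h).2

end Pool.Agent.Q236.EV
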